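import Pool.Agent.TH143.EL.Ell
import Pool.Agent.TH143.EL.Wp

/-!
Elliptic functions are rational functions of the Weierstrass function and its derivative.
-/

set_option autoImplicit false

namespace Pool.Agent.Y719.LC

open Filter Topology Set Pool.Agent.TH143.EL

theorem wp_ell (L : PeriodPair) : L.weierstrassP ∈ Ell L.ω₁ L.ω₂ :=
  ⟨L.meromorphic_weierstrassP, fun z => L.weierstrassP_add_coe z ⟨_, L.ω₁_mem_lattice⟩,
    fun z => L.weierstrassP_add_coe z ⟨_, L.ω₂_mem_lattice⟩⟩

theorem dwp_ell (L : PeriodPair) : L.derivWeierstrassP ∈ Ell L.ω₁ L.ω₂ :=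
  ⟨L.meromorphic_derivWeierstrassP, fun z => L.derivWeierstrassP_add_coe z ⟨_, L.ω₁_mem_lattice⟩,
    fun z => L.derivWeierstrassP_add_coe z ⟨_, L.ω₂_mem_lattice⟩⟩

theorem lat_shift (L : PeriodPair) {α : Type} {g : ℂ → α} (h1 : ∀ z, g (z + L.ω₁) = g z)
    (h2 : ∀ z, g (z + L.ω₂) = g z) {l : ℂ} (hl : l ∈ L.lattice) (z : ℂ) : g (z + l) = g z := by
  obtain ⟨m, n, hmn⟩ := PeriodPair.mem_lattice.1 hl
  rw [← hmn]
  exact per_int h1 h2 m n z

theorem codis_notMem (L : PeriodPair) : ∀ᶠ z in codiscrete ℂ, z ∉ L.lattice := by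
  apply codis_of_ev
  intro x
  filter_upwards [mem_nhdsWithin_of_mem_nhds (L.compl_lattice_sdiff_singleton_mem_nhds x),
    self_mem_nhdsWithin] with z hz hz0 hzl
  exact hz ⟨hzl, hz0⟩

theorem codis_sq (L : PeriodPair) : ∀ᶠ z in codiscrete ℂ, L.derivWeierstrassP z ^ 2 =
    4 * L.weierstrassP z ^ 3 - L.g₂ * L.weierstrassP z - L.g₃ := by
  filter_upwards [codis_notMem L] with z hz
  exact L.derivWeierstrassP_sq z hz

theorem dwp_ne (L : PeriodPair) : ∀ᶠ z in codiscrete ℂ, L.derivWeierstrassP z ≠ 0 := by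
  apply mero_ne L.meromorphic_derivWeierstrassP
  intro h
  have h1 : (Polynomial.C 4 * Polynomial.X ^ 3 - Polynomial.C L.g₂ * Polynomial.X -
      Polynomial.C L.g₃ : Polynomial ℂ) = 0 := by
    apply nc_poly L.meromorphic_weierstrassP (nc_wp L)
    filter_upwards [h, codis_sq L] with z h1 h2
    rw [h1] at h2
    simp only [Polynomial.eval_sub, Polynomial.eval_mul, Polynomial.eval_C, Polynomial.eval_pow,
      Polynomial.eval_X]
    rw [← h2]
    ring
  have h2 := congrArg (fun p => Polynomial.coeff p 3) h1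
  simp at h2

/-- `1` and the derivative are independent over the polynomials in the Weierstrass function -/
theorem wp_indep (L : PeriodPair) {P Q : Polynomial ℂ}
    (h : ∀ᶠ z in codiscrete ℂ, P.eval (L.weierstrassP z) +
      Q.eval (L.weierstrassP z) * L.derivWeierstrassP z = 0) : P = 0 ∧ Q = 0 := by
  have hneg : ∀ z : ℂ, ∃ d : ℂ, d ≠ 0 ∧ HasDerivAt (fun z : ℂ => -z) d z := fun z =>
    ⟨-1, by norm_num, hasDerivAt_neg' z⟩
  have h1 := pull_codis hneg h
  have hP : P = 0 := by
    apply nc_poly L.meromorphic_weierstrassP (nc_wp L)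
    filter_upwards [h, h1] with z h2 h3
    rw [L.weierstrassP_neg, L.derivWeierstrassP_neg] at h3
    linear_combination (h2 + h3) / 2
  refine ⟨hP, ?_⟩
  apply nc_poly L.meromorphic_weierstrassP (nc_wp L)
  filter_upwards [h, dwp_ne L] with z h2 h3
  rw [hP, Polynomial.eval_zero, zero_add] at h2
  exact (mul_eq_zero.1 h2).resolve_right h3

/-- **Elliptic functions.** -/
theorem ell_rat (L : PeriodPair) {h : ℂ → ℂ} (hh : h ∈ Ell L.ω₁ L.ω₂) :
    ∃ P Q C : Polynomial ℂ, C ≠ 0 ∧ ∀ᶠ z in codiscrete ℂ, C.eval (L.weierstrassP z) * h z =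
      P.eval (L.weierstrassP z) + Q.eval (L.weierstrassP z) * L.derivWeierstrassP z := by
  classical
  set r := ‖L.ω₁‖ + ‖L.ω₂‖ with hr
  have hU : {z | AnalyticAt ℂ h z} ∈ codiscrete ℂ := mero_an hh.1
  set U := {z | AnalyticAt ℂ h z} with hUdef
  have hSfin : (Uᶜ ∩ Metric.closedBall 0 r).Finite := by
    have h1 : IsCompact (Uᶜ ∩ Metric.closedBall (0 : ℂ) r) :=
      (isCompact_closedBall (0 : ℂ) r).inter_left (codis_open hU).isClosed_compl
    exact h1.finite ((mem_codiscrete'.1 hU).2.mono inter_subset_left)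
  obtain ⟨z0, hz0, hz0L⟩ := (Filter.Eventually.and hU (codis_notMem L)).exists
  choose na hna using fun p => hh.1 p
  set S := hSfin.toFinset with hS
  let m : ℕ := ∑ p ∈ S, na p
  have hmS : ∀ p ∈ S, na p ≤ m := fun p hp =>
    Finset.single_le_sum (f := fun p => na p) (fun _ _ => Nat.zero_le _) hp
  have hma : ∀ p ∈ S, AnalyticAt ℂ (fun z => (z - p) ^ m * h z) p := by
    intro p hp
    have h1 : (fun z => (z - p) ^ m * h z) = fun z => (z - p) ^ (m - na p) *
        ((z - p) ^ na p • h z) := by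
      funext z
      rw [smul_eq_mul, ← mul_assoc, ← pow_add, Nat.sub_add_cancel (hmS p hp)]
    rw [h1]
    exact (((analyticAt_id.sub analyticAt_const).pow _)).fun_mul (hna p)
  -- the three functions
  let b : Fin 3 → ℂ → ℂ := ![fun _ => 1, L.derivWeierstrassP, h]
  have hb : ∀ i, b i ∈ Ell L.ω₁ L.ω₂ := by
    intro i
    fin_cases i
    · exact (Ell L.ω₁ L.ω₂).one_mem
    · exact dwp_ell L
    · exact hh
  choose n0 hn0 using fun i => (hb i).1 0
  let M : ℕ := ∑ i, n0 i
  have hM : ∀ i, AnalyticAt ℂ (fun z => z ^ M * b i z) 0 := by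
    intro i
    have h2 : n0 i ≤ M := Finset.single_le_sum (f := n0) (fun _ _ => Nat.zero_le _)
      (Finset.mem_univ i)
    have h1 : (fun z => z ^ M * b i z) = fun z => z ^ (M - n0 i) * ((z - 0) ^ n0 i • b i z) := by
      funext z
      rw [smul_eq_mul, sub_zero, ← mul_assoc, ← pow_add, Nat.sub_add_cancel h2]
    rw [h1]
    exact (analyticAt_id.fun_pow _).fun_mul (hn0 i)
  let W : ℂ → ℂ := fun z => z ^ 2 * L.weierstrassPExcept 0 z + 1
  have hW : AnalyticAt ℂ W 0 :=
    ((analyticAt_id.fun_pow 2).fun_mul (L.analyticAt_weierstrassPExcept 0)).fun_add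
      analyticAt_const
  have hWe : ∀ z, z ≠ 0 → W z = z ^ 2 * L.weierstrassP z := by
    intro z hz
    have h1 := L.ite_eq_one_sub_sq_mul_weierstrassP 0 (zero_mem _) z
    rw [if_neg hz] at h1
    simp only [sub_zero, ne_eq, OfNat.ofNat_ne_zero, not_false_eq_true, zero_pow, div_zero] at h1
    exact h1.symm
  let n : ℕ := S.card * m + M + 1
  let ι := Fin 3 × Fin (n + 1)
  let f : ι → ℂ → ℂ := fun x z => b x.1 z * L.weierstrassP z ^ (x.2 : ℕ)
  have hf : ∀ x, f x ∈ Ell L.ω₁ L.ω₂ := fun x =>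
    (Ell L.ω₁ L.ω₂).mul_mem (hb x.1) ((Ell L.ω₁ L.ω₂).pow_mem (wp_ell L) _)
  let H : ℂ → ι → ℂ → ℂ := fun p x z => ((z - p) ^ m * b x.1 z) * L.weierstrassP z ^ (x.2 : ℕ)
  have hHan : ∀ p ∈ S, p ∉ L.lattice → ∀ x, AnalyticAt ℂ (H p x) p := by
    rintro p hp hpL ⟨i, k⟩
    have h1 : AnalyticAt ℂ (fun z => L.weierstrassP z ^ (k : ℕ)) p :=
      (L.analyticOnNhd_weierstrassP p hpL).fun_pow _
    refine AnalyticAt.fun_mul ?_ h1
    have h2 : AnalyticAt ℂ (fun z : ℂ => (z - p) ^ m) p :=
      (analyticAt_id.fun_sub analyticAt_const).fun_pow _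
    fin_cases i
    · exact h2.fun_mul analyticAt_const
    · exact h2.fun_mul (L.analyticOnNhd_derivWeierstrassP p hpL)
    · exact hma p hp
  let H0 : ι → ℂ → ℂ := fun x z => W z ^ (x.2 : ℕ) * (z ^ M * b x.1 z) * z ^ (2 * (n - x.2))
  have hH0an : ∀ x, AnalyticAt ℂ (H0 x) 0 := fun x =>
    ((hW.fun_pow _).fun_mul (hM x.1)).fun_mul (analyticAt_id.fun_pow _)
  have hH0e : ∀ x z, z ≠ 0 → H0 x z = z ^ (2 * n + M) * f x z := by
    intro x z hz
    have h1 : 2 * n + M = 2 * x.2 + M + 2 * (n - x.2) := by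
      have h2 := x.2.2
      omega
    simp only [H0, f]
    rw [hWe z hz, h1, pow_add, pow_add, mul_pow, ← pow_mul]
    ring
  -- the linear system
  let κ := ((S × Fin m) ⊕ Fin (2 * n + M)) ⊕ Unit
  have hcard : Fintype.card κ < Fintype.card ι := by
    simp only [κ, ι, Fintype.card_sum, Fintype.card_prod, Fintype.card_fin, Fintype.card_coe,
      Fintype.card_unit]
    simp only [n]
    nlinarith [Nat.zero_le (m * S.card)]
  obtain ⟨c, hc0, hc⟩ := exists_coeff hcard (fun k x => k.elim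
    (fun k => k.elim (fun q => iteratedDeriv (q.2 : ℕ) (H q.1 x) q.1)
      (fun q => iteratedDeriv (q : ℕ) (H0 x) 0))
    (fun _ => f x z0))
  let G : ℂ → ℂ := fun z => ∑ x, c x * f x z
  have hGm : G ∈ Ell L.ω₁ L.ω₂ := by
    have h1 : G = ∑ x : ι, algebraMap ℂ (ℂ → ℂ) (c x) * f x := by
      funext z
      simp only [G, Finset.sum_apply, Pi.mul_apply]
      rfl
    rw [h1]
    exact (Ell L.ω₁ L.ω₂).sum_mem fun x _ => (Ell L.ω₁ L.ω₂).mul_mem
      ((Ell L.ω₁ L.ω₂).algebraMap_mem _) (hf x)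
  set g := toMeromorphicNFOn G univ with hg
  have hg1 : ∀ z, g (z + L.ω₁) = g z := nf_per hGm.1 hGm.2.1
  have hg2 : ∀ z, g (z + L.ω₂) = g z := nf_per hGm.1 hGm.2.2
  have hg0 : AnalyticAt ℂ g 0 := by
    obtain ⟨u, hu, hu'⟩ := vanish_order (H := H0) hH0an (K := 2 * n + M) (c := c)
      (fun k hk => hc (Sum.inl (Sum.inr ⟨k, hk⟩)))
    refine nf_an hGm.1 hu ?_
    filter_upwards [hu'.filter_mono nhdsWithin_le_nhds, self_mem_nhdsWithin] with y h1 h2
    have h2 : y ≠ 0 := h2
    have h3 : y ^ (2 * n + M) ≠ 0 := pow_ne_zero _ h2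
    apply mul_left_cancel₀ h3
    rw [sub_zero] at h1
    rw [← h1, Finset.mul_sum]
    refine Finset.sum_congr rfl fun x _ => ?_
    rw [hH0e x y h2]
    ring
  have hgan : ∀ z, ‖z‖ ≤ r → AnalyticAt ℂ g z := by
    intro z hz
    by_cases hzL : z ∈ L.lattice
    · have h1 : g = fun w => g (w + -z) := by
        funext w
        exact (lat_shift L hg1 hg2 (neg_mem hzL) w).symm
      rw [h1]
      have h2 : AnalyticAt ℂ g (z + -z) := by
        rw [add_neg_cancel]
        exact hg0
      exact h2.fun_comp (f := fun w => w + -z) (analyticAt_id.fun_add analyticAt_const)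
    · by_cases hzU : z ∈ U
      · apply nf_an hGm.1 (u := G) _ (EventuallyEq.refl _ _)
        refine Finset.analyticAt_fun_sum _ fun x _ => analyticAt_const.fun_mul
          (AnalyticAt.fun_mul ?_ ((L.analyticOnNhd_weierstrassP z hzL).fun_pow _))
        obtain ⟨i, k⟩ := x
        fin_cases i
        · exact analyticAt_const
        · exact L.analyticOnNhd_derivWeierstrassP z hzL
        · exact hzU
      · have hzS : z ∈ S := hSfin.mem_toFinset.2 ⟨hzU, by rwa [mem_closedBall_zero_iff]⟩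
        obtain ⟨u, hu, hu'⟩ := vanish_order (H := H z) (hHan z hzS hzL) (K := m) (c := c)
          (fun k hk => hc (Sum.inl (Sum.inl (⟨z, hzS⟩, ⟨k, hk⟩))))
        refine nf_an hGm.1 hu ?_
        filter_upwards [hu'.filter_mono nhdsWithin_le_nhds, self_mem_nhdsWithin] with y h1 h2
        have h3 : (y - z) ^ m ≠ 0 := pow_ne_zero _ (sub_ne_zero.2 h2)
        apply mul_left_cancel₀ h3
        rw [← h1, Finset.mul_sum]
        refine Finset.sum_congr rfl fun x _ => ?_
        simp only [H, f]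
        ring
  have hconst := ell_liouville L.indep hg1 hg2 hgan
  have hGan0 : ContinuousAt G z0 := by
    refine (Finset.analyticAt_fun_sum (f := fun (x : ι) z => c x * f x z) Finset.univ
      fun x _ => analyticAt_const.fun_mul
      (AnalyticAt.fun_mul ?_ ((L.analyticOnNhd_weierstrassP z0 hz0L).fun_pow _))).continuousAt
    obtain ⟨i, k⟩ := x
    fin_cases i
    · exact analyticAt_const
    · exact L.analyticOnNhd_derivWeierstrassP z0 hz0L
    · exact hz0
  have hG0 : G z0 = g z0 := by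
    refine eq_of_codis (f := G) (g := fun _ => g z0) ?_ hGan0 continuousAt_const
    filter_upwards [nf_codis hGm.1] with z hz
    rw [hz]
    exact hconst z z0
  have hGz0 : G z0 = 0 := by
    rw [← hc (Sum.inr ())]
    simp only [G, Sum.elim_inr]
    refine Finset.sum_congr rfl fun x _ => ?_
    ring
  have hGall : ∀ᶠ z in codiscrete ℂ, G z = 0 := by
    filter_upwards [nf_codis hGm.1] with z hz
    rw [hz, ← hGz0, hG0]
    exact hconst z z0
  -- the polynomials
  let p : Fin 3 → Polynomial ℂ := fun i => ∑ k : Fin (n + 1), Polynomial.monomial (k : ℕ) (c (i, k))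
  have hpc : ∀ i (k : Fin (n + 1)), (p i).coeff k = c (i, k) := by
    intro i k
    simp only [p, Polynomial.finsetSum_coeff, Polynomial.coeff_monomial]
    rw [Finset.sum_eq_single k (fun k' _ hk' => if_neg fun h => hk' (Fin.ext h))
      (fun h => absurd (Finset.mem_univ k) h), if_pos rfl]
  have hG : ∀ z, G z = (p 0).eval (L.weierstrassP z) +
      (p 1).eval (L.weierstrassP z) * L.derivWeierstrassP z +
      (p 2).eval (L.weierstrassP z) * h z := by
    intro z
    simp only [G, f, p, Polynomial.eval_finsetSum, Polynomial.eval_monomial, Finset.sum_mul]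
    rw [Fintype.sum_prod_type, Fin.sum_univ_three]
    congr 1
    · congr 1
      · refine Finset.sum_congr rfl fun k _ => ?_
        change c (0, k) * (1 * _) = _
        ring
      · refine Finset.sum_congr rfl fun k _ => ?_
        change c (1, k) * (L.derivWeierstrassP z * _) = _
        ring
    · refine Finset.sum_congr rfl fun k _ => ?_
      change c (2, k) * (h z * _) = _
      ring
  by_cases h2 : p 2 = 0
  · exfalso
    obtain ⟨h3, h4⟩ := wp_indep L (P := p 0) (Q := p 1) (by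
      filter_upwards [hGall] with z hz
      rw [hG z, h2, Polynomial.eval_zero, zero_mul, add_zero] at hz
      exact hz)
    apply hc0
    funext x
    obtain ⟨i, k⟩ := x
    rw [← hpc]
    fin_cases i
    · change (p 0).coeff k = 0
      rw [h3, Polynomial.coeff_zero]
    · change (p 1).coeff k = 0
      rw [h4, Polynomial.coeff_zero]
    · change (p 2).coeff k = 0
      rw [h2, Polynomial.coeff_zero]
  · refine ⟨-p 0, -p 1, p 2, h2, ?_⟩
    filter_upwards [hGall] with z hz
    rw [hG z] at hz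
    rw [Polynomial.eval_neg, Polynomial.eval_neg]
    linear_combination hz

end Pool.Agent.Y719.LC
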