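import Pool.Agent.Y719.LC.Cub
import Pool.Agent.TH143.GE.Iff

/-!
Function fields of genus one and cubics.
-/

set_option autoImplicit false

namespace Pool.Agent.Y719.LC

open MvPolynomial Pool.Agent.TH143.HE Pool.Agent.TH143.GE FF Pool.Agent.W603.LV

variable {N : ℕ} {R : Type} [CommRing R]

/-- constant tuples -/
theorem const_of_not_NCt {A : Type} [Field A] {P Q : Fin (N + 1) → Polynomial A}
    (h : ¬ NCt P Q) : ∃ (p q : Polynomial A) (c : Fin (N + 1) → A),
      ∀ j, P j = Polynomial.C (c j) * p ∧ Q j = Polynomial.C (c j) * q := by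
  classical
  by_cases h0 : ∃ (j : Fin (N + 1)) (m : Bool × ℕ), (cond m.1 (P j) (Q j)).coeff m.2 ≠ 0
  · obtain ⟨k, n, hk⟩ := h0
    refine ⟨P k, Q k, fun j => (cond n.1 (P j) (Q j)).coeff n.2 /
      (cond n.1 (P k) (Q k)).coeff n.2, fun j => ?_⟩
    unfold NCt at h
    push Not at h
    have key : ∀ m : Bool × ℕ, (cond m.1 (P j) (Q j)).coeff m.2 =
        (cond n.1 (P j) (Q j)).coeff n.2 / (cond n.1 (P k) (Q k)).coeff n.2 *
          (cond m.1 (P k) (Q k)).coeff m.2 := by
      intro m
      have h1 := h j k m n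
      rw [div_mul_eq_mul_div, eq_div_iff hk, h1]
      ring
    constructor
    · ext i
      rw [Polynomial.coeff_C_mul]
      exact key (true, i)
    · ext i
      rw [Polynomial.coeff_C_mul]
      exact key (false, i)
  · push Not at h0
    refine ⟨0, 0, fun _ => 0, fun j => ⟨?_, ?_⟩⟩
    · ext i
      simpa using h0 j (true, i)
    · ext i
      simpa using h0 j (false, i)

theorem ns_of {a b : ℂ} (hns : ∀ e : ℂ, e ^ 3 + a * e + b = 0 → 3 * e ^ 2 + a ≠ 0) :
    4 * a ^ 3 + 27 * b ^ 2 ≠ 0 := by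
  intro h
  by_cases ha : a = 0
  · subst ha
    have hb : b = 0 := by
      have h1 : b ^ 2 = 0 := by linear_combination h / 27
      exact pow_eq_zero_iff two_ne_zero |>.1 h1
    subst hb
    exact hns 0 (by ring) (by ring)
  · apply hns (-(3 * b) / (2 * a))
    · field_simp
      linear_combination (-b) * h
    · field_simp
      linear_combination h

/-- **Curves of genus one.** -/
theorem genusOne_of_ell {φ : R →+* ℂ} {I I' : Ideal (MvPolynomial (Fin (N + 1)) R)}
    (h : EllIn φ I I') : GenusOneIn φ I I' := by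
  classical
  intro F _ _ _ h0 y hy hI
  obtain ⟨X, Y, a, b, hX, hXY, hind, hgen, hns⟩ := weier (k := ℂ) (F := F) h0
  have hrs : ∀ f : F, ∃ r s : MvPolynomial (Fin 2) ℂ, aeval ![X, Y] s ≠ 0 ∧
      f * aeval ![X, Y] s = aeval ![X, Y] r := by
    intro f
    obtain ⟨r, s, h⟩ := hgen f
    by_cases h0 : aeval ![X, Y] s = 0
    · refine ⟨0, 1, ?_, ?_⟩
      · rw [map_one]
        exact one_ne_zero
      · rw [h, h0, div_zero, zero_mul, map_zero]
    · exact ⟨r, s, h0, by rw [h, div_mul_cancel₀ _ h0]⟩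
  choose r s hs hr using fun i => hrs (y i)
  set D : F := ∏ i, aeval ![X, Y] (s i) with hD
  have hD0 : D ≠ 0 := Finset.prod_ne_zero_iff.2 fun i _ => hs i
  choose P Q hPQ using fun i => normal a b (r i * ∏ j ∈ Finset.univ.erase i, s j)
  have hw : ∀ i, Polynomial.aeval X (P i) + Polynomial.aeval X (Q i) * Y = D * y i := by
    intro i
    rw [← hPQ i F X Y hXY, map_mul, map_prod, ← hr, hD,
      ← Finset.mul_prod_erase _ _ (Finset.mem_univ i)]
    ring
  have hon : ∀ G : MvPolynomial (Fin (N + 1)) R, (∃ d, G.IsHomogeneous d) →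
      (onC φ a b P Q G = 0 ↔ eval₂ ((algebraMap ℂ F).comp φ) y G = 0) := by
    rintro G ⟨d, hd⟩
    have h1 := onC_eval φ P Q G (algebraMap ℂ F) hXY
    have h2 : (fun j => (P j).eval₂ (algebraMap ℂ F) X + (Q j).eval₂ (algebraMap ℂ F) X * Y) =
        fun j => D * y j := by
      funext j
      rw [← hw j]
      rfl
    rw [h2, eval₂_smul_homog _ D y hd] at h1
    constructor
    · intro h3
      rw [h3, Polynomial.eval₂_zero] at h1
      exact (mul_eq_zero.1 h1.symm).resolve_left (pow_ne_zero _ hD0)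
    · intro h3
      rw [h3, mul_zero] at h1
      obtain ⟨α, β, h4⟩ := onC_degree φ a b P Q G
      rw [h4] at h1
      simp only [Polynomial.eval₂_add, Polynomial.eval₂_mul, Polynomial.eval₂_C,
        Polynomial.eval₂_X, Polynomial.coe_eval₂RingHom] at h1
      obtain ⟨h5, h6⟩ := hind α β h1
      rw [h4, h5, h6]
      simp
  by_cases hnc : NCt P Q
  · left
    intro G hG hGh
    by_contra hne
    exact h a b P Q ⟨ns_of hns, fun G hG hGh => (hon G hGh).2 (hI G hG hGh),
      ⟨G, hG, hGh, fun h3 => hne ((hon G hGh).1 h3)⟩, hnc⟩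
  · right
    obtain ⟨p, q, c, hc⟩ := const_of_not_NCt hnc
    refine ⟨(Polynomial.aeval X p + Polynomial.aeval X q * Y) / D, c, fun i => ?_⟩
    have h1 := hw i
    rw [(hc i).1, (hc i).2, map_mul, map_mul, Polynomial.aeval_C] at h1
    rw [← mul_div_assoc, eq_div_iff hD0]
    linear_combination -h1

end Pool.Agent.Y719.LC
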