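import Pool.Agent.Y719.LC.Cub

/-!
Singular cubics and rational curves.
-/

set_option autoImplicit false

namespace Pool.Agent.Y719.LC

open MvPolynomial Pool.Agent.TH143.HE

variable {N : ℕ} {R : Type} [CommRing R] {k : Type} [Field k]

theorem not_NCt_of {P Q : Fin (N + 1) → Polynomial k} {c : Fin (N + 1) → k} {l : Fin (N + 1)}
    (hl : c l ≠ 0) (h : ∀ j, Polynomial.C (c l) * P j = Polynomial.C (c j) * P l ∧
      Polynomial.C (c l) * Q j = Polynomial.C (c j) * Q l) : ¬ NCt P Q := by
  rintro ⟨i, j, m, n, hne⟩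
  apply hne
  have key : ∀ (j : Fin (N + 1)) (m : Bool × ℕ), (cond m.1 (P j) (Q j)).coeff m.2 =
      c j / c l * (cond m.1 (P l) (Q l)).coeff m.2 := by
    rintro j ⟨m, t⟩
    rw [div_mul_eq_mul_div, eq_div_iff hl]
    cases m
    · have h1 := congrArg (fun p => Polynomial.coeff p t) (h j).2
      simp only [Polynomial.coeff_C_mul] at h1
      simp only [cond_false]
      rw [mul_comm, h1]
    · have h1 := congrArg (fun p => Polynomial.coeff p t) (h j).1
      simp only [Polynomial.coeff_C_mul] at h1
      simp only [cond_true]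
      rw [mul_comm, h1]
  rw [key i m, key j n, key j m, key i n]
  ring

/-- the parametrisation of the singular cubic -/
theorem sing_curve (e : k) : (Polynomial.X * (Polynomial.X ^ 2 - Polynomial.C (3 * e))) ^ 2 =
    (Polynomial.X ^ 2 - Polynomial.C (2 * e)) ^ 3 +
      Polynomial.C (-3 * e ^ 2) * (Polynomial.X ^ 2 - Polynomial.C (2 * e)) +
      Polynomial.C (2 * e ^ 3) := by
  simp only [map_mul, map_pow, map_neg, Polynomial.C_ofNat]
  ring

theorem sing_indep [CharZero k] (e : k) {α β : Polynomial k}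
    (h : α.eval₂ Polynomial.C (Polynomial.X ^ 2 - Polynomial.C (2 * e)) +
      β.eval₂ Polynomial.C (Polynomial.X ^ 2 - Polynomial.C (2 * e)) *
        (Polynomial.X * (Polynomial.X ^ 2 - Polynomial.C (3 * e))) = 0) : α = 0 ∧ β = 0 := by
  set x : Polynomial k := Polynomial.X ^ 2 - Polynomial.C (2 * e) with hx
  have hdeg : x.natDegree = 2 := Polynomial.natDegree_X_pow_sub_C
  have hcomp : ∀ p : Polynomial k, p.comp x = 0 → p = 0 := by
    intro p hp
    rcases Polynomial.comp_eq_zero_iff.1 hp with h1 | ⟨-, h1⟩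
    · exact h1
    · exfalso
      rw [h1, Polynomial.natDegree_C] at hdeg
      omega
  have hxn : x.comp (-Polynomial.X) = x := by
    rw [hx]
    simp
  have h1 := congrArg (fun p => Polynomial.comp p (-Polynomial.X)) h
  simp only [Polynomial.add_comp, Polynomial.mul_comp, Polynomial.zero_comp,
    Polynomial.X_comp] at h1
  change (α.comp x).comp (-Polynomial.X) + (β.comp x).comp (-Polynomial.X) * _ = 0 at h1
  rw [Polynomial.comp_assoc, Polynomial.comp_assoc, hxn] at h1
  have h2 : (Polynomial.X ^ 2 - Polynomial.C (3 * e) : Polynomial k).comp (-Polynomial.X) =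
      Polynomial.X ^ 2 - Polynomial.C (3 * e) := by simp
  rw [h2] at h1
  change α.comp x + β.comp x * _ = 0 at h
  have h3 : α.comp x = 0 := by
    have h4 : (2 : Polynomial k) * α.comp x = 0 := by linear_combination h + h1
    exact (mul_eq_zero.1 h4).resolve_left two_ne_zero
  refine ⟨hcomp _ h3, hcomp _ ?_⟩
  rw [h3, zero_add] at h
  refine (mul_eq_zero.1 h).resolve_right (mul_ne_zero Polynomial.X_ne_zero ?_)
  intro h0
  have h4 := Polynomial.natDegree_X_pow_sub_C (R := k) (n := 2) (r := 3 * e)
  rw [h0, Polynomial.natDegree_zero] at h4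
  omega

/-- **Singular cubics** give rational curves. -/
theorem rcur_of_sing [CharZero k] {φ : R →+* k} {I I' : Ideal (MvPolynomial (Fin (N + 1)) R)}
    {a b : k} {P Q : Fin (N + 1) → Polynomial k} (h0 : 4 * a ^ 3 + 27 * b ^ 2 = 0)
    (hz : ∀ G ∈ I, (∃ d, G.IsHomogeneous d) → onC φ a b P Q G = 0)
    (hne : ∃ G ∈ I', (∃ d, G.IsHomogeneous d) ∧ onC φ a b P Q G ≠ 0) (hnc : NCt P Q) :
    ∃ p : Fin (N + 1) → Polynomial k, RCur φ I I' p := by
  classical
  obtain ⟨e, ha, hb⟩ : ∃ e : k, a = -3 * e ^ 2 ∧ b = 2 * e ^ 3 := by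
    by_cases ha : a = 0
    · subst ha
      have hb : b = 0 := by
        have h1 : b ^ 2 = 0 := by linear_combination h0 / 27
        exact pow_eq_zero_iff two_ne_zero |>.1 h1
      exact ⟨0, by simp, by simp [hb]⟩
    · refine ⟨-(3 * b) / (2 * a), ?_, ?_⟩
      · field_simp
        linear_combination h0
      · field_simp
        linear_combination b * h0
  set x : Polynomial k := Polynomial.X ^ 2 - Polynomial.C (2 * e) with hx
  set y : Polynomial k := Polynomial.X * (Polynomial.X ^ 2 - Polynomial.C (3 * e)) with hy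
  have hxy : y ^ 2 = x ^ 3 + Polynomial.C a * x + Polynomial.C b := by
    rw [ha, hb]
    exact sing_curve e
  let p : Fin (N + 1) → Polynomial k := fun j =>
    (P j).eval₂ Polynomial.C x + (Q j).eval₂ Polynomial.C x * y
  have hev : ∀ G : MvPolynomial (Fin (N + 1)) R, (onC φ a b P Q G = 0 ↔
      eval₂ (Polynomial.C.comp φ) p G = 0) := by
    intro G
    have h1 := onC_eval φ P Q G (Polynomial.C (R := k)) hxy
    constructor
    · intro h2
      rw [h2, Polynomial.eval₂_zero] at h1
      exact h1.symm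
    · intro h2
      obtain ⟨α, β, h3⟩ := onC_degree φ a b P Q G
      rw [h3] at h1
      simp only [Polynomial.eval₂_add, Polynomial.eval₂_mul, Polynomial.eval₂_C,
        Polynomial.eval₂_X, Polynomial.coe_eval₂RingHom] at h1
      obtain ⟨h4, h5⟩ := sing_indep e (h1.trans h2)
      rw [h3, h4, h5]
      simp
  refine ⟨p, fun G hG hGh => (hev G).1 (hz G hG hGh), ?_, ?_⟩
  · obtain ⟨G, hG, hGh, h1⟩ := hne
    exact ⟨G, hG, hGh, fun h2 => h1 ((hev G).2 h2)⟩
  · by_contra hcon
    push Not at hcon
    by_cases hp : ∃ l n, (p l).coeff n ≠ 0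
    · obtain ⟨l, n, hln⟩ := hp
      refine not_NCt_of (c := fun j => (p j).coeff n) hln (fun j => ?_) hnc
      have h1 : Polynomial.C ((p l).coeff n) * p j - Polynomial.C ((p j).coeff n) * p l = 0 := by
        ext i
        rw [Polynomial.coeff_sub, Polynomial.coeff_C_mul, Polynomial.coeff_C_mul,
          Polynomial.coeff_zero]
        linear_combination hcon l j n i
      have h2 : (Polynomial.C ((p l).coeff n) * P j - Polynomial.C ((p j).coeff n) * P l).eval₂
          Polynomial.C x + (Polynomial.C ((p l).coeff n) * Q j -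
            Polynomial.C ((p j).coeff n) * Q l).eval₂ Polynomial.C x * y = 0 := by
        rw [← h1]
        simp only [Polynomial.eval₂_sub, Polynomial.eval₂_mul, Polynomial.eval₂_C]
        simp only [p]
        ring
      obtain ⟨h3, h4⟩ := sing_indep e h2
      exact ⟨sub_eq_zero.1 h3, sub_eq_zero.1 h4⟩
    · push Not at hp
      have h1 : ∀ j, P j = 0 ∧ Q j = 0 := fun j => sing_indep e (by
        have : p j = 0 := by
          ext n
          rw [hp, Polynomial.coeff_zero]
        exact this)
      obtain ⟨i, j, m, n, hne⟩ := hnc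
      apply hne
      have h2 : ∀ (j : Fin (N + 1)) (m : Bool × ℕ), (cond m.1 (P j) (Q j)).coeff m.2 = 0 := by
        rintro j ⟨m, t⟩
        cases m
        · simp [(h1 j).2]
        · simp [(h1 j).1]
      rw [h2 i m, h2 j m, zero_mul, zero_mul]

theorem even_odd (p : Polynomial k) : ∃ E O : Polynomial k,
    p = E.eval₂ Polynomial.C (Polynomial.X ^ 2) +
      Polynomial.X * O.eval₂ Polynomial.C (Polynomial.X ^ 2) := by
  induction p using Polynomial.induction_on' with
  | add p q hp hq =>
    obtain ⟨E, O, h⟩ := hp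
    obtain ⟨E', O', h'⟩ := hq
    refine ⟨E + E', O + O', ?_⟩
    rw [h, h', Polynomial.eval₂_add, Polynomial.eval₂_add]
    ring
  | monomial n c =>
    obtain ⟨m, rfl | rfl⟩ := n.even_or_odd'
    · refine ⟨Polynomial.monomial m c, 0, ?_⟩
      rw [Polynomial.eval₂_monomial, Polynomial.eval₂_zero, mul_zero, add_zero, ← pow_mul,
        Polynomial.C_mul_X_pow_eq_monomial]
    · refine ⟨0, Polynomial.monomial m c, ?_⟩
      rw [Polynomial.eval₂_monomial, Polynomial.eval₂_zero, zero_add, ← pow_mul,
        ← Polynomial.C_mul_X_pow_eq_monomial]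
      ring

/-- **Rational curves** as images of the cuspidal cubic. -/
theorem cusp_of_rcur [CharZero k] {φ : R →+* k} {I I' : Ideal (MvPolynomial (Fin (N + 1)) R)}
    {p : Fin (N + 1) → Polynomial k} (h : RCur φ I I' p) :
    ∃ P Q : Fin (N + 1) → Polynomial k,
      (∀ G ∈ I, (∃ d, G.IsHomogeneous d) → onC φ 0 0 P Q G = 0) ∧
      (∃ G ∈ I', (∃ d, G.IsHomogeneous d) ∧ onC φ 0 0 P Q G ≠ 0) ∧ NCt P Q := by
  classical
  obtain ⟨h1, ⟨G', hG', hGh', hne⟩, hnc⟩ := h
  choose E O hEO using fun j => even_odd (p j)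
  have hind : ∀ {α β : Polynomial k}, α.eval₂ Polynomial.C (Polynomial.X ^ 2) +
      β.eval₂ Polynomial.C (Polynomial.X ^ 2) * Polynomial.X ^ 3 = 0 → α = 0 ∧ β = 0 := by
    intro α β h
    apply sing_indep (0 : k)
    rw [mul_zero, mul_zero, map_zero, sub_zero]
    rw [← h]
    ring
  have hxy : ((Polynomial.X ^ 3 : Polynomial k)) ^ 2 = (Polynomial.X ^ 2) ^ 3 +
      Polynomial.C (0 : k) * Polynomial.X ^ 2 + Polynomial.C 0 := by
    rw [map_zero]
    ring
  have hw : (fun j => (Polynomial.X * E j).eval₂ Polynomial.C (Polynomial.X ^ 2) +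
      (O j).eval₂ Polynomial.C (Polynomial.X ^ 2) * Polynomial.X ^ 3) =
      fun j => Polynomial.X ^ 2 * p j := by
    funext j
    rw [hEO j, Polynomial.eval₂_mul, Polynomial.eval₂_X]
    ring
  have hev : ∀ G : MvPolynomial (Fin (N + 1)) R, (∃ d, G.IsHomogeneous d) →
      (onC φ 0 0 (fun j => Polynomial.X * E j) O G = 0 ↔
        eval₂ (Polynomial.C.comp φ) p G = 0) := by
    rintro G ⟨d, hd⟩
    have h2 := onC_eval φ (fun j => Polynomial.X * E j) O G (Polynomial.C (R := k)) hxy
    rw [hw, eval₂_smul_homog _ _ _ hd] at h2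
    constructor
    · intro h3
      rw [h3, Polynomial.eval₂_zero] at h2
      exact (mul_eq_zero.1 h2.symm).resolve_left
        (pow_ne_zero _ (pow_ne_zero _ Polynomial.X_ne_zero))
    · intro h3
      rw [h3, mul_zero] at h2
      obtain ⟨α, β, h4⟩ := onC_degree φ 0 0 (fun j => Polynomial.X * E j) O G
      rw [h4] at h2
      simp only [Polynomial.eval₂_add, Polynomial.eval₂_mul, Polynomial.eval₂_C,
        Polynomial.eval₂_X, Polynomial.coe_eval₂RingHom] at h2
      obtain ⟨h5, h6⟩ := hind h2
      rw [h4, h5, h6]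
      simp
  refine ⟨fun j => Polynomial.X * E j, O, fun G hG hGh => (hev G hGh).2 (h1 G hG hGh),
    ⟨G', hG', hGh', fun h2 => hne ((hev G' hGh').1 h2)⟩, ?_⟩
  by_contra hcon
  obtain ⟨i, j, m, n, hij⟩ := hnc
  apply hij
  -- the tuple is proportional to a constant tuple
  by_cases hl : ∃ (l : Fin (N + 1)) (s : Bool × ℕ),
      (cond s.1 (Polynomial.X * E l) (O l)).coeff s.2 ≠ 0
  · obtain ⟨l, s, hls⟩ := hl
    unfold NCt at hcon
    push Not at hcon
    set c : Fin (N + 1) → k := fun j => (cond s.1 (Polynomial.X * E j) (O j)).coeff s.2 with hc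
    have h2 : ∀ j, Polynomial.C (c l) * p j = Polynomial.C (c j) * p l := by
      intro j
      have h3 : Polynomial.C (c l) * (Polynomial.X * E j) =
          Polynomial.C (c j) * (Polynomial.X * E l) := by
        ext t
        rw [Polynomial.coeff_C_mul, Polynomial.coeff_C_mul]
        exact hcon l j s (true, t)
      have h4 : Polynomial.C (c l) * O j = Polynomial.C (c j) * O l := by
        ext t
        rw [Polynomial.coeff_C_mul, Polynomial.coeff_C_mul]
        exact hcon l j s (false, t)
      have h5 : Polynomial.X ^ 2 * (Polynomial.C (c l) * p j) =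
          Polynomial.X ^ 2 * (Polynomial.C (c j) * p l) := by
        have h6 := congrFun hw j
        have h7 := congrFun hw l
        have h8 := congrArg (Polynomial.eval₂ (Polynomial.C (R := k)) (Polynomial.X ^ 2)) h3
        have h9 := congrArg (Polynomial.eval₂ (Polynomial.C (R := k)) (Polynomial.X ^ 2)) h4
        simp only [Polynomial.eval₂_mul, Polynomial.eval₂_C, Polynomial.eval₂_X] at h6 h7 h8 h9
        linear_combination (-Polynomial.C (c l)) * h6 + Polynomial.C (c j) * h7 + h8 +
          Polynomial.X ^ 3 * h9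
      exact mul_left_cancel₀ (pow_ne_zero _ Polynomial.X_ne_zero) h5
    have key : ∀ j t, (p j).coeff t = c j / c l * (p l).coeff t := by
      intro j t
      have h1 := congrArg (fun p => Polynomial.coeff p t) (h2 j)
      simp only [Polynomial.coeff_C_mul] at h1
      rw [div_mul_eq_mul_div, eq_div_iff hls, mul_comm, h1]
    rw [key i m, key j n, key j m, key i n]
    ring
  · push Not at hl
    have h2 : ∀ j, p j = 0 := by
      intro j
      have h3 : Polynomial.X * E j = 0 := by
        ext t
        exact hl j (true, t)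
      have h4 : O j = 0 := by
        ext t
        exact hl j (false, t)
      have h5 : E j = 0 := (mul_eq_zero.1 h3).resolve_left Polynomial.X_ne_zero
      rw [hEO j, h4, h5, Polynomial.eval₂_zero, mul_zero, add_zero]
    rw [h2, h2]

end Pool.Agent.Y719.LC
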