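import Pool.Agent.Y719.LC.Par2
import Pool.Agent.Y719.LC.EllF
import Pool.Agent.Y719.LC.Sing
import Pool.Agent.Y719.LC.GO
import Pool.Agent.TH600.LK.Ell

/-!
Entire curves and maps from elliptic curves.
-/

set_option autoImplicit false

namespace Pool.Agent.Y719.LC

open Filter Topology Set MvPolynomial
open scoped LinearAlgebra.Projectivization
open Pool.Agent.TH143.EL
open Pool.Agent.TH143.HE (RatCurvesIn IsPtP NonConst RCur ratCurvesIn_iff eval₂_smul_homog)

variable {N : ℕ} {R : Type} [CommRing R]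

/-! ### ideals over the complex numbers -/

/-- the ideal over the complex numbers generated by the forms in `I` -/
noncomputable def cI (σ : R →+* ℂ) (I : Ideal (MvPolynomial (Fin (N + 1)) R)) :
    Ideal (MvPolynomial (Fin (N + 1)) ℂ) :=
  Ideal.span {G | ∃ G0 ∈ I, (∃ d, G0.IsHomogeneous d) ∧ G = MvPolynomial.map σ G0}

theorem ptP_cI {σ : R →+* ℂ} {I : Ideal (MvPolynomial (Fin (N + 1)) R)} {v : Fin (N + 1) → ℂ} :
    (∀ G ∈ cI σ I, (∃ d, G.IsHomogeneous d) → eval v G = 0) ↔ IsPtP σ I v := by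
  constructor
  · rintro h G hG ⟨d, hd⟩
    have h1 := h (MvPolynomial.map σ G) (Ideal.subset_span ⟨G, hG, ⟨d, hd⟩, rfl⟩) ⟨d, hd.map σ⟩
    rwa [eval_map] at h1
  · intro h G hG _
    have h1 : cI σ I ≤ RingHom.ker (eval v) := by
      unfold cI
      rw [Ideal.span_le]
      rintro _ ⟨G0, hG0, hd, rfl⟩
      change eval v (MvPolynomial.map σ G0) = 0
      rw [eval_map]
      exact h G0 hG0 hd
    exact h1 hG

theorem inV_cI {σ : R →+* ℂ} {I : Ideal (MvPolynomial (Fin (N + 1)) R)}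
    {p : ℙ ℂ (Fin (N + 1) → ℂ)} {v : Fin (N + 1) → ℂ} (hv : Rep p v) :
    InV (cI σ I) p ↔ IsPtP σ I v := by
  rw [inV_iff hv]
  exact ptP_cI

theorem rat_cI {σ : R →+* ℂ} {I I' : Ideal (MvPolynomial (Fin (N + 1)) R)} :
    RatCurvesIn (RingHom.id ℂ) (cI σ I) (cI σ I') ↔ RatCurvesIn σ I I' := by
  have h : ∀ (J : Ideal (MvPolynomial (Fin (N + 1)) R)) (v : Fin (N + 1) → ℂ),
      IsPtP (RingHom.id ℂ) (cI σ J) v ↔ IsPtP σ J v := by
    intro J v
    refine Iff.trans ?_ ptP_cI
    unfold IsPtP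
    simp only [eval₂_id]
  unfold RatCurvesIn
  simp only [h]

/-! ### independence of the coordinates of the parametrisation -/

theorem norm_zero_of {a b : ℂ} {α β : Polynomial ℂ}
    (h : α ^ 2 = β ^ 2 * (Polynomial.X ^ 3 + Polynomial.C a * Polynomial.X + Polynomial.C b)) :
    α = 0 ∧ β = 0 := by
  set F : Polynomial ℂ := Polynomial.X ^ 3 + Polynomial.C a * Polynomial.X + Polynomial.C b
    with hF
  have hdeg : F.natDegree = 3 := by
    rw [hF]
    compute_degree!
  have hF0 : F ≠ 0 := by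
    intro h0
    rw [h0, Polynomial.natDegree_zero] at hdeg
    omega
  have hβ : β = 0 := by
    by_contra hβ
    have h1 := congrArg Polynomial.natDegree h
    rw [Polynomial.natDegree_pow, Polynomial.natDegree_mul (pow_ne_zero _ hβ) hF0,
      Polynomial.natDegree_pow, hdeg] at h1
    omega
  refine ⟨?_, hβ⟩
  rw [hβ] at h
  have h1 : α ^ 2 = 0 := by rw [h]; ring
  exact pow_eq_zero_iff two_ne_zero |>.1 h1

theorem par_indep {a b : ℂ} {α β : Polynomial ℂ}
    (h : ∀ᶠ z in codiscrete ℂ, α.eval (px a b z) + β.eval (px a b z) * py a b z = 0) :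
    α = 0 ∧ β = 0 := by
  apply norm_zero_of (a := a) (b := b)
  rw [← sub_eq_zero]
  apply nc_poly (mero_px a b) (nc_px a b)
  filter_upwards [h, curve_codis a b] with z h1 h2
  simp only [Polynomial.eval_sub, Polynomial.eval_pow, Polynomial.eval_mul, Polynomial.eval_add,
    Polynomial.eval_X, Polynomial.eval_C]
  rw [← h2]
  linear_combination (α.eval (px a b z) - β.eval (px a b z) * py a b z) * h1

/-- values of the composite -/
theorem onC_val (φ : R →+* ℂ) {a b : ℂ} (P Q : Fin (N + 1) → Polynomial ℂ)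
    (G : MvPolynomial (Fin (N + 1)) R) : ∃ α β : Polynomial ℂ,
      (onC φ a b P Q G = 0 ↔ α = 0 ∧ β = 0) ∧
      ∀ x y : ℂ, y ^ 2 = x ^ 3 + a * x + b →
        eval₂ φ (fun j => (P j).eval x + (Q j).eval x * y) G = α.eval x + β.eval x * y := by
  obtain ⟨α, β, h⟩ := onC_degree φ a b P Q G
  refine ⟨α, β, ⟨fun h0 => ?_, fun h0 => ?_⟩, fun x y hxy => ?_⟩
  · rw [h] at h0
    constructor
    · have := congrArg (fun p => Polynomial.coeff p 0) h0
      simpa using this
    · have := congrArg (fun p => Polynomial.coeff p 1) h0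
      simpa [Polynomial.coeff_C] using this
  · rw [h, h0.1, h0.2]
    simp
  · have h1 := onC_eval φ P Q G (RingHom.id ℂ) (x := x) (y := y) hxy
    rw [h, RingHom.id_comp] at h1
    simp only [Polynomial.eval₂_add, Polynomial.eval₂_mul, Polynomial.eval₂_C,
      Polynomial.eval₂_X, Polynomial.coe_eval₂RingHom, Polynomial.eval₂_id] at h1
    exact h1.symm

/-- entire curves with homogeneous coordinates in a differential ring of transcendence degree
at most one -/
def RingCurve (f : ℂ → ℙ ℂ (Fin (N + 1) → ℂ)) : Prop :=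
  ∃ (B : Subalgebra ℂ (ℂ → ℂ)), TrOne B ∧ ∃ h : Fin (N + 1) → ℂ → ℂ, (∀ j, h j ∈ B) ∧
    ∀ᶠ z in codiscrete ℂ, Rep (f z) fun j => h j z

/-- **From entire curves to elliptic curves.** -/
theorem ell_of_ent {σ : R →+* ℂ} {I I' : Ideal (MvPolynomial (Fin (N + 1)) R)}
    (h : ∀ f : ℂ → ℙ ℂ (Fin (N + 1) → ℂ), HolMap f → RingCurve f → (∀ z, InV (cI σ I) (f z)) →
      (∃ z w, f z ≠ f w) → ∀ z, InV (cI σ I') (f z)) : EllIn σ I I' := by
  classical
  rintro a b P Q ⟨hns, hz, ⟨G', hG', hGh', hne⟩, hnc⟩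
  let w : Fin (N + 1) → ℂ → ℂ := fun j z =>
    (P j).eval (px a b z) + (Q j).eval (px a b z) * py a b z
  have hw : ∀ j, w j ∈ PB a b := by
    intro j
    have h1 : ∀ p : Polynomial ℂ, (fun z => p.eval (px a b z)) ∈ PB a b := by
      intro p
      have h2 : (fun z => p.eval (px a b z)) = Polynomial.aeval (px a b) p := by
        funext z
        have h3 := Polynomial.aeval_algHom_apply (Pi.evalAlgHom ℂ (fun _ : ℂ => ℂ) z) (px a b) p
        rw [Polynomial.coe_aeval_eq_eval] at h3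
        exact h3
      rw [h2]
      exact Algebra.adjoin_le (Set.singleton_subset_iff.2 (px_mem a b))
        (Polynomial.aeval_mem_adjoin_singleton ℂ (px a b) (p := p))
    exact (PB a b).add_mem (h1 (P j)) ((PB a b).mul_mem (h1 (Q j)) (py_mem a b))
  have hm : ∀ j, Meromorphic (w j) := fun j => (hw j).1
  have hne0 : ∃ j, ¬ ∀ᶠ z in codiscrete ℂ, w j z = 0 := by
    by_contra hcon
    push Not at hcon
    have h1 : ∀ j, P j = 0 ∧ Q j = 0 := fun j => par_indep (hcon j)
    obtain ⟨i, j, m, n, hij⟩ := hnc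
    apply hij
    have h2 : ∀ (j : Fin (N + 1)) (m : Bool × ℕ), (cond m.1 (P j) (Q j)).coeff m.2 = 0 := by
      rintro j ⟨m, t⟩
      cases m
      · simp [(h1 j).2]
      · simp [(h1 j).1]
    rw [h2 i m, h2 j m, zero_mul, zero_mul]
  obtain ⟨f, hf, hr⟩ := codis_rep hm hne0
  have hnc' : ∃ z w, f z ≠ f w := by
    by_contra hcon
    push Not at hcon
    obtain ⟨z1, hz1⟩ := hr.exists
    set c : Fin (N + 1) → ℂ := fun j => w j z1 with hc
    obtain ⟨l, hl⟩ := Function.ne_iff.1 hz1.1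
    have hl' : c l ≠ 0 := hl
    refine not_NCt_of hl' (fun j => ?_) hnc
    have h1 := par_indep (a := a) (b := b)
      (α := Polynomial.C (c l) * P j - Polynomial.C (c j) * P l)
      (β := Polynomial.C (c l) * Q j - Polynomial.C (c j) * Q l) (by
        filter_upwards [hr] with z hz2
        rw [hcon z z1] at hz2
        have h2 := ((rep_iff hz1).1 hz2).2 j l
        simp only [Polynomial.eval_sub, Polynomial.eval_mul, Polynomial.eval_C]
        simp only [w, hc] at h2 ⊢
        linear_combination -h2)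
    exact ⟨sub_eq_zero.1 h1.1, sub_eq_zero.1 h1.2⟩
  have hI : ∀ z, InV (cI σ I) (f z) := by
    intro z
    apply inV_of_punct hf
    filter_upwards [codis_ev hr z, codis_ev (curve_codis a b) z] with y h1 h2
    rw [inV_cI h1]
    intro G hG hGh
    obtain ⟨α, β, h3, h4⟩ := onC_val σ (a := a) (b := b) P Q G
    have h5 := h3.1 (hz G hG hGh)
    rw [h4 _ _ h2, h5.1, h5.2]
    simp
  have hI' := h f hf ⟨PB a b, trOne_PB a b, w, hw, hr⟩ hI hnc'
  apply hne
  obtain ⟨α, β, h3, h4⟩ := onC_val σ (a := a) (b := b) P Q G'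
  apply h3.2
  apply par_indep (a := a) (b := b)
  filter_upwards [hr, curve_codis a b] with z h5 h6
  rw [← h4 _ _ h6]
  exact (inV_cI h5).1 (hI' z) G' hG' hGh'

/-! ### complex tori -/

/-- a common denominator -/
theorem ell_common (L : PeriodPair) {h : Fin (N + 1) → ℂ → ℂ}
    (hh : ∀ j, h j ∈ Ell L.ω₁ L.ω₂) : ∃ (P Q : Fin (N + 1) → Polynomial ℂ) (D : Polynomial ℂ),
      D ≠ 0 ∧ ∀ᶠ z in codiscrete ℂ, ∀ j, D.eval (L.weierstrassP z) * h j z =
        (P j).eval (L.weierstrassP z) +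
          (Q j).eval (L.weierstrassP z) * (L.derivWeierstrassP z / 2) := by
  classical
  choose P Q C hC hPQ using fun j => ell_rat L (hh j)
  refine ⟨fun j => P j * ∏ i ∈ Finset.univ.erase j, C i,
    fun j => Polynomial.C 2 * Q j * ∏ i ∈ Finset.univ.erase j, C i, ∏ i, C i,
    Finset.prod_ne_zero_iff.2 fun i _ => hC i, ?_⟩
  filter_upwards [eventually_all.2 hPQ] with z hz j
  rw [← Finset.mul_prod_erase _ _ (Finset.mem_univ j)]
  simp only [Polynomial.eval_mul, Polynomial.eval_C]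
  linear_combination ((∏ i ∈ Finset.univ.erase j, C i).eval (L.weierstrassP z)) * hz j

/-- **From elliptic and rational curves to complex tori.** -/
theorem torus_of_alg {σ : R →+* ℂ} {I I' : Ideal (MvPolynomial (Fin (N + 1)) R)}
    (hR : RatCurvesIn σ I I') (hE : EllIn σ I I') : TorusMapsIn (cI σ I) (cI σ I') := by
  classical
  intro ω₁ ω₂ hind f hf h1 h2 hI hnc
  let L : PeriodPair := ⟨ω₁, ω₂, hind⟩
  obtain ⟨h, hh, hr⟩ := Pool.Agent.TH600.LK.torus_coords_ell hf h1 h2
  obtain ⟨P, Q, D, hD, hPQ⟩ := ell_common L (h := fun j z => h z j) hh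
  set a : ℂ := -(L.g₂ / 4) with ha
  set b : ℂ := -(L.g₃ / 4) with hb
  have hcurve : ∀ᶠ z in codiscrete ℂ, (L.derivWeierstrassP z / 2) ^ 2 =
      L.weierstrassP z ^ 3 + a * L.weierstrassP z + b := by
    filter_upwards [codis_sq L] with z hz
    rw [ha, hb]
    linear_combination hz / 4
  have hD' : ∀ᶠ z in codiscrete ℂ, D.eval (L.weierstrassP z) ≠ 0 := by
    apply mero_ne (mero_poly L.meromorphic_weierstrassP D)
    intro h0
    exact hD (nc_poly L.meromorphic_weierstrassP (nc_wp L) h0)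
  let w : Fin (N + 1) → ℂ → ℂ := fun j z => (P j).eval (L.weierstrassP z) +
    (Q j).eval (L.weierstrassP z) * (L.derivWeierstrassP z / 2)
  have hrw : ∀ᶠ z in codiscrete ℂ, Rep (f z) fun j => w j z := by
    filter_upwards [hr, hPQ, hD'] with z h3 h4 h5
    have h6 : (fun j => w j z) = fun j => D.eval (L.weierstrassP z) * h z j := by
      funext j
      exact (h4 j).symm
    rw [h6]
    exact (rep_smul h5).2 h3
  have hindep : ∀ {α β : Polynomial ℂ}, (∀ᶠ z in codiscrete ℂ, α.eval (L.weierstrassP z) +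
      β.eval (L.weierstrassP z) * (L.derivWeierstrassP z / 2) = 0) → α = 0 ∧ β = 0 := by
    intro α β h0
    obtain ⟨h3, h4⟩ := wp_indep L (P := α) (Q := Polynomial.C (1 / 2) * β) (by
      filter_upwards [h0] with z hz
      rw [Polynomial.eval_mul, Polynomial.eval_C]
      linear_combination hz)
    refine ⟨h3, (mul_eq_zero.1 h4).resolve_left fun h5 => ?_⟩
    rw [Polynomial.C_eq_zero] at h5
    norm_num at h5
  have hzero : ∀ (J : Ideal (MvPolynomial (Fin (N + 1)) R)), (∀ z, InV (cI σ J) (f z)) →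
      ∀ G ∈ J, (∃ d, G.IsHomogeneous d) → onC σ a b P Q G = 0 := by
    intro J hJ G hG hGh
    obtain ⟨α, β, h3, h4⟩ := onC_val σ (a := a) (b := b) P Q G
    apply h3.2
    apply hindep
    filter_upwards [hrw, hcurve] with z h5 h6
    rw [← h4 _ _ h6]
    exact (inV_cI h5).1 (hJ z) G hG hGh
  have hback : (∀ G ∈ I', (∃ d, G.IsHomogeneous d) → onC σ a b P Q G = 0) →
      ∀ z, InV (cI σ I') (f z) := by
    intro h0 z
    apply inV_of_punct hf
    filter_upwards [codis_ev hrw z, codis_ev hcurve z] with y h3 h4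
    rw [inV_cI h3]
    intro G hG hGh
    obtain ⟨α, β, h5, h6⟩ := onC_val σ (a := a) (b := b) P Q G
    have h7 := h5.1 (h0 G hG hGh)
    rw [h6 _ _ h4, h7.1, h7.2]
    simp
  apply hback
  intro G hG hGh
  by_contra hne
  have hNC : NCt P Q := by
    by_contra hcon
    obtain ⟨p, q, c, hc⟩ := const_of_not_NCt hcon
    obtain ⟨z0, z1, hz01⟩ := hnc
    have h3 : ∀ᶠ z in codiscrete ℂ, ∀ᶠ z' in codiscrete ℂ, f z = f z' := by
      filter_upwards [hrw] with z h4
      filter_upwards [hrw] with z' h5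
      refine rep_eq' h4 h5 fun i j => ?_
      simp only [w, (hc _).1, (hc _).2, Polynomial.eval_mul, Polynomial.eval_C]
      ring
    obtain ⟨z2, hz2⟩ := h3.exists
    have hconst : HolMap fun _ : ℂ => f z2 := by
      intro z
      obtain ⟨g, hg, hgr⟩ := hf z2
      exact ⟨fun j _ => g j z2, fun j => analyticAt_const,
        Eventually.of_forall fun _ => hgr.self_of_nhds⟩
    have h4 : ∀ z, f z2 = f z := fun z => holMap_ext hconst hf (codis_ev hz2 z)
    exact hz01 ((h4 z0).symm.trans (h4 z1))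
  by_cases hns : 4 * a ^ 3 + 27 * b ^ 2 = 0
  · obtain ⟨p, hp⟩ := rcur_of_sing hns (hzero I hI) ⟨G, hG, hGh, hne⟩ hNC
    exact ratCurvesIn_iff.1 hR p hp
  · exact hE a b P Q ⟨hns, hzero I hI, ⟨G, hG, hGh, hne⟩, hNC⟩

end Pool.Agent.Y719.LC
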