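import Pool.Agent.TH143.HE.RSpec

/-!
Maps from plane cubics `y² = x³ + a x + b` to projective varieties over fields: definitions.
-/

set_option autoImplicit false

namespace Pool.Agent.Y719.LC

open MvPolynomial Pool.Agent.TH143.HE

variable {N : ℕ} {R : Type} [CommRing R]

/-- the polynomial `y² - (x³ + a x + b)`, as a polynomial in `y` over the polynomials in `x` -/
noncomputable def wq {A : Type} [CommRing A] (a b : A) : Polynomial (Polynomial A) :=
  Polynomial.X ^ 2 - Polynomial.C (Polynomial.X ^ 3 + Polynomial.C a * Polynomial.X +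
    Polynomial.C b)

/-- the tuple `P_j (x) + Q_j (x) y` -/
noncomputable def tup {A : Type} [CommRing A] (P Q : Fin (N + 1) → Polynomial A)
    (j : Fin (N + 1)) : Polynomial (Polynomial A) :=
  Polynomial.C (P j) + Polynomial.C (Q j) * Polynomial.X

/-- the form `G` on the cubic, composed with the tuple `P_j (x) + Q_j (x) y`: the remainder
modulo the equation of the cubic -/
noncomputable def onC {A : Type} [CommRing A] (φ : R →+* A) (a b : A)
    (P Q : Fin (N + 1) → Polynomial A) (G : MvPolynomial (Fin (N + 1)) R) :
    Polynomial (Polynomial A) :=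
  eval₂ (Polynomial.C.comp (Polynomial.C.comp φ)) (tup P Q) G %ₘ wq a b

/-- nonconstant tuples: some minor of the matrix of coefficients is nonzero -/
def NCt {A : Type} [CommRing A] (P Q : Fin (N + 1) → Polynomial A) : Prop :=
  ∃ (j k : Fin (N + 1)) (m n : Bool × ℕ),
    (cond m.1 (P j) (Q j)).coeff m.2 * (cond n.1 (P k) (Q k)).coeff n.2 ≠
      (cond m.1 (P k) (Q k)).coeff m.2 * (cond n.1 (P j) (Q j)).coeff n.2

/-- A nonconstant map from an elliptic curve to the projective variety given by the forms in `I`,
whose image is not contained in the variety given by the forms in `I'`. -/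
structure ECur {A : Type} [Field A] (φ : R →+* A) (I I' : Ideal (MvPolynomial (Fin (N + 1)) R))
    (a b : A) (P Q : Fin (N + 1) → Polynomial A) : Prop where
  ns : 4 * a ^ 3 + 27 * b ^ 2 ≠ 0
  zero : ∀ G ∈ I, (∃ d, G.IsHomogeneous d) → onC φ a b P Q G = 0
  ne : ∃ G ∈ I', (∃ d, G.IsHomogeneous d) ∧ onC φ a b P Q G ≠ 0
  nc : NCt P Q

/-- There is no nonconstant map from an elliptic curve over `A` to the variety of `I` whose image is
not contained in the variety of `I'`. -/
def EllIn {A : Type} [Field A] (φ : R →+* A) (I I' : Ideal (MvPolynomial (Fin (N + 1)) R)) : Prop :=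
  ∀ (a b : A) (P Q : Fin (N + 1) → Polynomial A), ¬ ECur φ I I' a b P Q

/-- There is no nonconstant map from the line or from an elliptic curve over `A` to the variety of
`I` whose image is not contained in the variety of `I'`. -/
def AlgIn {A : Type} [Field A] (φ : R →+* A) (I I' : Ideal (MvPolynomial (Fin (N + 1)) R)) : Prop :=
  (∀ p : Fin (N + 1) → Polynomial A, ¬ RCur φ I I' p) ∧ EllIn φ I I'

end Pool.Agent.Y719.LC
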