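import Pool.Agent.Y719.LC.CDef

/-!
Maps from plane cubics `y² = x³ + a x + b` to projective varieties over fields, and their
specializations.
-/

set_option autoImplicit false

namespace Pool.Agent.Y719.LC

open MvPolynomial Pool.Agent.TH143.HE

variable {N : ℕ} {R : Type} [CommRing R]

section

variable {A A' : Type} [CommRing A] [CommRing A']

theorem wq_monic (a b : A) : (wq a b).Monic := by
  unfold wq
  exact Polynomial.monic_X_pow_sub_C _ two_ne_zero

theorem wq_map (g : A →+* A') (a b : A) :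
    (wq a b).map (Polynomial.mapRingHom g) = wq (g a) (g b) := by
  unfold wq
  simp

theorem onC_map (φ : R →+* A) (g : A →+* A') (a b : A) (P Q : Fin (N + 1) → Polynomial A)
    (G : MvPolynomial (Fin (N + 1)) R) :
    (onC φ a b P Q G).map (Polynomial.mapRingHom g) =
      onC (g.comp φ) (g a) (g b) (fun j => (P j).map g) (fun j => (Q j).map g) G := by
  unfold onC
  rw [Polynomial.map_modByMonic _ (wq_monic a b), wq_map]
  congr 1
  rw [← Polynomial.coe_mapRingHom, eval₂_comp_left]
  congr 1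
  · ext r
    simp
  · funext j
    simp [tup]

theorem wq_natDegree [Nontrivial A] (a b : A) : (wq a b).natDegree = 2 := by
  unfold wq
  exact Polynomial.natDegree_X_pow_sub_C

theorem onC_degree (φ : R →+* A) (a b : A) (P Q : Fin (N + 1) → Polynomial A)
    (G : MvPolynomial (Fin (N + 1)) R) :
    ∃ α β : Polynomial A, onC φ a b P Q G = Polynomial.C α + Polynomial.C β * Polynomial.X := by
  cases subsingleton_or_nontrivial A with
  | inl h => exact ⟨0, 0, Subsingleton.elim _ _⟩
  | inr h =>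
    have h1 : (onC φ a b P Q G).natDegree < 2 := by
      unfold onC
      rw [← wq_natDegree a b]
      exact Polynomial.natDegree_modByMonic_lt _ (wq_monic a b) (by
        intro h0
        have h2 := wq_natDegree a b
        rw [h0, Polynomial.natDegree_one] at h2
        omega)
    refine ⟨(onC φ a b P Q G).coeff 0, (onC φ a b P Q G).coeff 1, ?_⟩
    have h2 := Polynomial.exists_eq_X_add_C_of_natDegree_le_one
      (p := onC φ a b P Q G) (by omega)
    obtain ⟨c, d, hcd⟩ := h2
    rw [hcd]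
    simp [add_comm]

/-- values of the composite at points of the cubic in an extension -/
theorem onC_eval (φ : R →+* A) {a b : A} (P Q : Fin (N + 1) → Polynomial A)
    (G : MvPolynomial (Fin (N + 1)) R) (g : A →+* A') {x y : A'}
    (hxy : y ^ 2 = x ^ 3 + g a * x + g b) :
    (onC φ a b P Q G).eval₂ (Polynomial.eval₂RingHom g x) y =
      eval₂ (g.comp φ) (fun j => (P j).eval₂ g x + (Q j).eval₂ g x * y) G := by
  have h1 := Polynomial.modByMonic_add_div (eval₂ (Polynomial.C.comp (Polynomial.C.comp φ))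
    (tup P Q) G) (wq a b)
  have h2 := congrArg (Polynomial.eval₂RingHom (Polynomial.eval₂RingHom g x) y) h1
  rw [map_add, map_mul] at h2
  have h3 : Polynomial.eval₂RingHom (Polynomial.eval₂RingHom g x) y (wq a b) = 0 := by
    unfold wq
    simp only [map_sub, map_pow, Polynomial.coe_eval₂RingHom, Polynomial.eval₂_X,
      Polynomial.eval₂_C, map_add, map_mul, hxy]
    ring
  rw [h3, zero_mul, add_zero] at h2
  change Polynomial.eval₂RingHom (Polynomial.eval₂RingHom g x) y (onC φ a b P Q G) = _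
  unfold onC
  rw [h2, eval₂_comp_left]
  congr 1
  · ext r
    simp
  · funext j
    simp [tup]

end

/-- base change to a larger field -/
theorem ECur.map {A A' : Type} [Field A] [Field A'] {φ : R →+* A}
    {I I' : Ideal (MvPolynomial (Fin (N + 1)) R)} {a b : A} {P Q : Fin (N + 1) → Polynomial A}
    (h : ECur φ I I' a b P Q) (g : A →+* A') :
    ECur (g.comp φ) I I' (g a) (g b) (fun j => (P j).map g) (fun j => (Q j).map g) := by
  obtain ⟨h0, h1, ⟨G', hG', hGh, hne⟩, j, k, m, n, hc⟩ := h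
  refine ⟨?_, fun G hG hGf => ?_, ⟨G', hG', hGh, ?_⟩, j, k, m, n, ?_⟩
  · intro h
    apply h0
    apply g.injective
    rw [map_add, map_mul, map_mul, map_pow, map_pow, map_ofNat, map_ofNat, map_zero]
    exact h
  · rw [← onC_map, h1 G hG hGf, Polynomial.map_zero]
  · rw [← onC_map]
    rwa [Ne, Polynomial.map_eq_zero_iff (Polynomial.map_injective g g.injective)]
  · have e : ∀ (m : Bool × ℕ) (j : Fin (N + 1)),
        (cond m.1 ((P j).map g) ((Q j).map g)).coeff m.2 = g ((cond m.1 (P j) (Q j)).coeff m.2) := by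
      rintro ⟨m, i⟩ j
      cases m <;> simp
    rw [e, e, e, e]
    intro h0
    rw [← map_mul, ← map_mul] at h0
    exact hc (g.injective h0)

/-- **Specialization.** -/
theorem ECur.spec {k E : Type} [Field k] [Field E] [Algebra k E] (φ : R →+* k)
    {I I' : Ideal (MvPolynomial (Fin (N + 1)) R)} {a b : E} {P Q : Fin (N + 1) → Polynomial E}
    (h : ECur ((algebraMap k E).comp φ) I I' a b P Q) :
    ∃ (L : Type) (_ : Field L) (_ : Algebra k L) (_ : FiniteDimensional k L)
      (a' b' : L) (P' Q' : Fin (N + 1) → Polynomial L),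
      ECur ((algebraMap k L).comp φ) I I' a' b' P' Q' := by
  classical
  obtain ⟨h0, h1, ⟨G', hG', hGh, hne⟩, j, j', m, n, hc⟩ := h
  set cc : E := (cond m.1 (P j) (Q j)).coeff m.2 * (cond n.1 (P j') (Q j')).coeff n.2 -
      (cond m.1 (P j') (Q j')).coeff m.2 * (cond n.1 (P j) (Q j)).coeff n.2 with hcc
  have hcc0 : cc ≠ 0 := sub_ne_zero.2 hc
  set lc : E := (onC ((algebraMap k E).comp φ) a b P Q G').leadingCoeff.leadingCoeff with hlc
  have hlc0 : lc ≠ 0 := by
    rw [hlc, Ne, Polynomial.leadingCoeff_eq_zero, Polynomial.leadingCoeff_eq_zero]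
    exact hne
  let s : Finset E := ((Finset.univ.biUnion fun j => (P j).coeffs) ∪
    (Finset.univ.biUnion fun j => (Q j).coeffs)) ∪
    {a, b, cc⁻¹, lc⁻¹, (4 * a ^ 3 + 27 * b ^ 2)⁻¹}
  let A := Algebra.adjoin k (s : Set E)
  have hs : ∀ x ∈ s, x ∈ A := fun x hx => Algebra.subset_adjoin hx
  have hA : Algebra.FiniteType k A :=
    ⟨(Subalgebra.fg_top A).2 ⟨s, rfl⟩⟩
  obtain ⟨M, hM⟩ := Ideal.exists_maximal A
  let _ : Field (A ⧸ M) := Ideal.Quotient.field M
  have hft : Algebra.FiniteType k (A ⧸ M) :=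
    Algebra.FiniteType.of_surjective (Ideal.Quotient.mkₐ k M) Ideal.Quotient.mk_surjective
  have hfin : Module.Finite k (A ⧸ M) := finite_of_finite_type_of_isJacobsonRing k (A ⧸ M)
  let θ : A →ₐ[k] A ⧸ M := Ideal.Quotient.mkₐ k M
  have hlift : ∀ p : Polynomial E, p.coeffs ⊆ s → ∃ q : Polynomial A,
      q.map (algebraMap A E) = p := by
    intro p hp
    have h2 : p ∈ Polynomial.lifts (algebraMap A E) := by
      rw [Polynomial.lifts_iff_coeff_lifts]
      intro t
      by_cases ht : p.coeff t = 0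
      · exact ⟨0, by rw [ht, map_zero]⟩
      · exact ⟨⟨p.coeff t, hs _ (hp (Polynomial.coeff_mem_coeffs ht))⟩, rfl⟩
    exact (Polynomial.mem_lifts _).1 h2
  choose P1 hP1 using fun j => hlift (P j) (fun x hx => Finset.mem_union_left _
    (Finset.mem_union_left _ (Finset.mem_biUnion.2 ⟨j, Finset.mem_univ _, hx⟩)))
  choose Q1 hQ1 using fun j => hlift (Q j) (fun x hx => Finset.mem_union_left _
    (Finset.mem_union_right _ (Finset.mem_biUnion.2 ⟨j, Finset.mem_univ _, hx⟩)))
  have ha : a ∈ s := by simp [s]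
  have hb : b ∈ s := by simp [s]
  let a1 : A := ⟨a, hs a ha⟩
  let b1 : A := ⟨b, hs b hb⟩
  have hinj : Function.Injective (algebraMap A E) := Subtype.val_injective
  have hinj2 : Function.Injective (Polynomial.mapRingHom (algebraMap A E)) :=
    Polynomial.map_injective _ hinj
  have hcur : ∀ G, (onC ((algebraMap k A).comp φ) a1 b1 P1 Q1 G).map
      (Polynomial.mapRingHom (algebraMap A E)) = onC ((algebraMap k E).comp φ) a b P Q G := by
    intro G
    rw [onC_map]
    congr 1
    · funext j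
      exact hP1 j
    · funext j
      exact hQ1 j
  have hcur' : ∀ G, (onC ((algebraMap k A).comp φ) a1 b1 P1 Q1 G).map
      (Polynomial.mapRingHom (θ : A →+* A ⧸ M)) = onC ((algebraMap k (A ⧸ M)).comp φ)
        (θ a1) (θ b1) (fun j => (P1 j).map (θ : A →+* A ⧸ M))
        (fun j => (Q1 j).map (θ : A →+* A ⧸ M)) G := by
    intro G
    rw [onC_map]
    rfl
  have hunit : ∀ x : A, ((x : E))⁻¹ ∈ s → (x : E) ≠ 0 → θ x ≠ 0 := by
    intro x hx hx0 h0
    have h2 : x * ⟨_, hs _ hx⟩ = 1 := Subtype.ext (mul_inv_cancel₀ hx0)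
    have h3 := congrArg θ h2
    rw [map_mul, h0, zero_mul, map_one] at h3
    exact zero_ne_one h3
  have hPc : ∀ j i, (((P1 j).coeff i : A) : E) = (P j).coeff i := by
    intro j i
    rw [← hP1 j, Polynomial.coeff_map]
    rfl
  have hQc : ∀ j i, (((Q1 j).coeff i : A) : E) = (Q j).coeff i := by
    intro j i
    rw [← hQ1 j, Polynomial.coeff_map]
    rfl
  have hcc1 : ∀ (m : Bool × ℕ) (j : Fin (N + 1)),
      (((cond m.1 (P1 j) (Q1 j)).coeff m.2 : A) : E) = (cond m.1 (P j) (Q j)).coeff m.2 := by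
    rintro ⟨m, i⟩ j
    cases m
    · exact hQc j i
    · exact hPc j i
  refine ⟨A ⧸ M, inferInstance, inferInstance, hfin, θ a1, θ b1,
    fun j => (P1 j).map (θ : A →+* A ⧸ M), fun j => (Q1 j).map (θ : A →+* A ⧸ M),
    ⟨?_, fun G hG hGf => ?_, ⟨G', hG', hGh, ?_⟩, j, j', m, n, ?_⟩⟩
  · have h2 : ((4 * a1 ^ 3 + 27 * b1 ^ 2 : A) : E) = 4 * a ^ 3 + 27 * b ^ 2 := by
      push_cast
      rfl
    have h3 := hunit (4 * a1 ^ 3 + 27 * b1 ^ 2) (by rw [h2]; simp [s]) (by rw [h2]; exact h0)
    rwa [map_add, map_mul, map_mul, map_pow, map_pow, map_ofNat, map_ofNat] at h3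
  · have h2 : onC ((algebraMap k A).comp φ) a1 b1 P1 Q1 G = 0 := by
      apply Polynomial.map_injective _ hinj2
      rw [hcur, h1 G hG hGf, Polynomial.map_zero]
    rw [← hcur', h2, Polynomial.map_zero]
  · rw [← hcur']
    intro h0
    set q := onC ((algebraMap k A).comp φ) a1 b1 P1 Q1 G' with hq
    have h2 : (q.leadingCoeff.leadingCoeff : E) = lc := by
      rw [hlc, ← hcur, Polynomial.leadingCoeff_map_of_injective hinj2,
        Polynomial.coe_mapRingHom, Polynomial.leadingCoeff_map_of_injective hinj]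
      rfl
    refine hunit q.leadingCoeff.leadingCoeff ?_ ?_ ?_
    · rw [h2]
      simp [s]
    · rw [h2]
      exact hlc0
    · have h3 := congrArg (fun f => Polynomial.coeff (Polynomial.coeff f q.natDegree)
        q.leadingCoeff.natDegree) h0
      simp only [Polynomial.coeff_map, Polynomial.coeff_zero, Polynomial.coe_mapRingHom] at h3
      exact h3
  · have e : ∀ (m : Bool × ℕ) (j : Fin (N + 1)),
        (cond m.1 ((P1 j).map (θ : A →+* A ⧸ M)) ((Q1 j).map (θ : A →+* A ⧸ M))).coeff m.2 =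
          θ ((cond m.1 (P1 j) (Q1 j)).coeff m.2) := by
      rintro ⟨m, i⟩ j
      cases m <;> simp
    rw [e, e, e, e]
    intro h0
    have h2 : (((cond m.1 (P1 j) (Q1 j)).coeff m.2 * (cond n.1 (P1 j') (Q1 j')).coeff n.2 -
      (cond m.1 (P1 j') (Q1 j')).coeff m.2 * (cond n.1 (P1 j) (Q1 j)).coeff n.2 : A) : E) =
        cc := by
      rw [hcc, ← hcc1, ← hcc1, ← hcc1, ← hcc1]
      push_cast
      rfl
    refine hunit ((cond m.1 (P1 j) (Q1 j)).coeff m.2 * (cond n.1 (P1 j') (Q1 j')).coeff n.2 -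
      (cond m.1 (P1 j') (Q1 j')).coeff m.2 * (cond n.1 (P1 j) (Q1 j)).coeff n.2) ?_ ?_ ?_
    · rw [h2]
      simp [s]
    · rw [h2]
      exact hcc0
    · rw [map_sub, map_mul, map_mul, sub_eq_zero]
      exact h0

end Pool.Agent.Y719.LC
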