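import Pool.Agent.W599.CB.Rel
import Pool.Agent.TH143.EL.Exa
import Pool.Agent.TH143.EL.Main

/-!
Every cubic `y² = x³ + a x + b` is parametrised by meromorphic functions on the plane which generate
a differential ring of transcendence degree one.
-/

set_option autoImplicit false

namespace Pool.Agent.Y719.LC

open Filter Topology Set Metric Pool.Agent.TH143.EL Pool.Agent.W599.CB

variable (a b : ℂ)

theorem diff_p : Differentiable ℂ (pf a b) :=
  differentiable_pf (a := fun _ => a) (b := fun _ => b) (U := fun z => z)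
    (differentiable_const _) (differentiable_const _) differentiable_id

theorem diff_q : Differentiable ℂ (qf a b) :=
  differentiable_qf (a := fun _ => a) (b := fun _ => b) (U := fun z => z)
    (differentiable_const _) (differentiable_const _) differentiable_id

theorem diff_w : Differentiable ℂ (wf a b) :=
  differentiable_wf (a := fun _ => a) (b := fun _ => b) (U := fun z => z)
    (differentiable_const _) (differentiable_const _) differentiable_id

theorem p_zero : pf a b 0 = 0 := by
  obtain ⟨C, ε, hC, hε, h⟩ := small_est a b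
  have h1 := (h 0 (by rw [norm_zero]; exact hε.le)).1
  rw [sub_zero, norm_zero, zero_pow two_ne_zero, mul_zero] at h1
  exact norm_le_zero_iff.1 h1

theorem q_zero : qf a b 0 = 1 := by
  obtain ⟨C, ε, hC, hε, h⟩ := small_est a b
  have h1 := (h 0 (by rw [norm_zero]; exact hε.le)).2.1
  rw [norm_zero, zero_pow two_ne_zero, mul_zero] at h1
  exact sub_eq_zero.1 (norm_le_zero_iff.1 h1)

theorem w_zero : wf a b 0 = 1 := by
  obtain ⟨C, ε, hC, hε, h⟩ := small_est a b
  have h1 := (h 0 (by rw [norm_zero]; exact hε.le)).2.2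
  rw [norm_zero, zero_pow two_ne_zero, mul_zero] at h1
  exact sub_eq_zero.1 (norm_le_zero_iff.1 h1)

theorem dp_zero : HasDerivAt (pf a b) 1 0 := by
  rw [hasDerivAt_iff_isLittleO_nhds_zero]
  have h1 : (fun h : ℂ => h ^ 2) =o[𝓝 0] fun h : ℂ => h := by
    have := (Asymptotics.isLittleO_pow_id (𝕜 := ℂ) (n := 2) one_lt_two)
    exact this
  refine ((est_O a b).1.trans_isLittleO h1).congr_left fun h => ?_
  rw [zero_add, p_zero, sub_zero, smul_eq_mul, mul_one]

/-- the defect of the differential equation -/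
noncomputable def wd (U : ℂ) : ℂ :=
  deriv (qf a b) U * pf a b U - qf a b U * deriv (pf a b) U + wf a b U

theorem wd_zero : wd a b 0 = 0 := by
  unfold wd
  rw [p_zero, q_zero, w_zero, (dp_zero a b).deriv]
  ring

theorem wd_diff : Differentiable ℂ (wd a b) := by
  unfold wd
  have h1 : Differentiable ℂ (deriv (qf a b)) := fun z =>
    ((diff_q a b).analyticAt z).deriv.differentiableAt
  have h2 : Differentiable ℂ (deriv (pf a b)) := fun z =>
    ((diff_p a b).analyticAt z).deriv.differentiableAt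
  exact ((h1.mul (diff_p a b)).sub ((diff_q a b).mul h2)).add (diff_w a b)

theorem wd_four (U : ℂ) : wd a b (4 * U) = jj a b (pf a b U) (qf a b U) * wd a b U := by
  have hp : HasDerivAt (pf a b) (deriv (pf a b) U) U := ((diff_p a b) U).hasDerivAt
  have hq : HasDerivAt (qf a b) (deriv (qf a b) U) U := ((diff_q a b) U).hasDerivAt
  have h4 : HasDerivAt (fun U : ℂ => 4 * U) 4 U := by
    simpa using (hasDerivAt_id U).const_mul (4 : ℂ)
  have hp4 : HasDerivAt (fun U => pf a b (4 * U)) (deriv (pf a b) (4 * U) * 4) U :=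
    ((diff_p a b) (4 * U)).hasDerivAt.comp U h4
  have hq4 : HasDerivAt (fun U => qf a b (4 * U)) (deriv (qf a b) (4 * U) * 4) U :=
    ((diff_q a b) (4 * U)).hasDerivAt.comp U h4
  have hp4' : HasDerivAt (fun U => pf a b (4 * U))
      (4 * (deriv (pf a b) U * qf a b U ^ 3 + pf a b U * (3 * qf a b U ^ 2 * deriv (qf a b) U) +
        a * (3 * pf a b U ^ 2 * deriv (pf a b) U * qf a b U + pf a b U ^ 3 * deriv (qf a b) U) +
        b * (4 * pf a b U ^ 3 * deriv (pf a b) U))) U := by
    have e : (fun U => pf a b (4 * U)) = fun U => 4 * (pf a b U * qf a b U ^ 3 +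
        a * (pf a b U ^ 3 * qf a b U) + b * pf a b U ^ 4) := by
      funext U
      rw [pf_four, C4]
      ring
    rw [e]
    have := (((hp.fun_mul (hq.fun_pow 3)).fun_add (((hp.fun_pow 3).fun_mul hq).const_mul a)).fun_add
      ((hp.fun_pow 4).const_mul b)).const_mul 4
    refine this.congr_deriv ?_
    push_cast
    ring
  have hq4' : HasDerivAt (fun U => qf a b (4 * U))
      (4 * qf a b U ^ 3 * deriv (qf a b) U -
        2 * a * (2 * pf a b U * deriv (pf a b) U * qf a b U ^ 2 +
          pf a b U ^ 2 * (2 * qf a b U * deriv (qf a b) U)) -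
        8 * b * (3 * pf a b U ^ 2 * deriv (pf a b) U * qf a b U +
          pf a b U ^ 3 * deriv (qf a b) U) +
        a ^ 2 * (4 * pf a b U ^ 3 * deriv (pf a b) U)) U := by
    have e : (fun U => qf a b (4 * U)) = fun U => qf a b U ^ 4 -
        2 * a * (pf a b U ^ 2 * qf a b U ^ 2) - 8 * b * (pf a b U ^ 3 * qf a b U) +
        a ^ 2 * pf a b U ^ 4 := by
      funext U
      rw [qf_four, g2]
      ring
    rw [e]
    have := ((((hq.fun_pow 4).fun_sub (((hp.fun_pow 2).fun_mul (hq.fun_pow 2)).const_mul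
      (2 * a))).fun_sub
      (((hp.fun_pow 3).fun_mul hq).const_mul (8 * b))).fun_add ((hp.fun_pow 4).const_mul (a ^ 2)))
    refine this.congr_deriv ?_
    push_cast
    ring
  have e1 := hp4.unique hp4'
  have e2 := hq4.unique hq4'
  unfold wd
  rw [wf_four, pf_four, qf_four]
  set P := pf a b U
  set Q := qf a b U
  set P' := deriv (pf a b) U
  set Q' := deriv (qf a b) U
  simp only [C4, g2, jj]
  linear_combination (P * Q ^ 3 + a * P ^ 3 * Q + b * P ^ 4) * e2 -
    (1 / 4) * (Q ^ 4 - 2 * a * P ^ 2 * Q ^ 2 - 8 * b * P ^ 3 * Q + a ^ 2 * P ^ 4) * e1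

theorem wd_eq (U : ℂ) : wd a b U = 0 := by
  have hj : Tendsto (fun h : ℂ => jj a b (pf a b h) (qf a b h)) (𝓝 0) (𝓝 1) := by
    have hc : Continuous (fun h : ℂ => jj a b (pf a b h) (qf a b h)) := by
      have h1 := (diff_p a b).continuous
      have h2 := (diff_q a b).continuous
      unfold jj
      fun_prop
    have := hc.tendsto 0
    rw [p_zero, q_zero] at this
    simpa [jj] using this
  have hj' : ∀ᶠ h : ℂ in 𝓝 0, ‖jj a b (pf a b h) (qf a b h)‖ ≤ 2 := by
    have := hj.norm.eventually (gt_mem_nhds (show ‖(1:ℂ)‖ < 2 by norm_num))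
    filter_upwards [this] with h hh using hh.le
  have hO : (fun h => wd a b h) =O[𝓝 0] fun h : ℂ => h := by
    have h1 := ((wd_diff a b) 0).hasDerivAt.isBigO_sub
    simpa [wd_zero] using h1
  obtain ⟨C, hC⟩ := hO.bound
  obtain ⟨r, hr, hball⟩ := Metric.eventually_nhds_iff_ball.1 (hj'.and hC)
  have hlt : ∀ (h : ℂ) (n : ℕ), ‖h‖ < r → ‖h / 4 ^ n‖ < r := by
    intro h n hh
    rw [norm_div, norm_pow]
    simp only [Complex.norm_ofNat]
    exact lt_of_le_of_lt (div_le_self (norm_nonneg _) (one_le_pow₀ (by norm_num))) hh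
  have hC0 : ∀ h : ℂ, ‖h‖ < r → ∀ n : ℕ, ‖wd a b h‖ ≤ 2 ^ n * ‖wd a b (h / 4 ^ n)‖ := by
    intro h hh n
    induction n with
    | zero => simp
    | succ n ih =>
      refine ih.trans ?_
      have e : h / 4 ^ n = 4 * (h / 4 ^ (n + 1)) := by rw [pow_succ]; field_simp
      have := (hball _ (mem_ball_zero_iff.2 (hlt h (n + 1) hh))).1
      rw [e, wd_four, norm_mul, pow_succ (2 : ℝ)]
      calc _ ≤ 2 ^ n * (2 * ‖wd a b (h / 4 ^ (n + 1))‖) := by gcongr
        _ = _ := by ring
  have hzero : ∀ h : ℂ, ‖h‖ < r → wd a b h = 0 := by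
    intro h hh
    rw [← norm_eq_zero]
    refine le_antisymm ?_ (norm_nonneg _)
    have hlim : Tendsto (fun n : ℕ => C * ‖h‖ * (1 / 2 : ℝ) ^ n) atTop (𝓝 (C * ‖h‖ * 0)) :=
      (tendsto_pow_atTop_nhds_zero_of_lt_one (by norm_num) (by norm_num)).const_mul _
    rw [mul_zero] at hlim
    refine ge_of_tendsto' hlim (fun n => ?_)
    refine (hC0 h hh n).trans ?_
    have := (hball _ (mem_ball_zero_iff.2 (hlt h n hh))).2
    calc (2 : ℝ) ^ n * ‖wd a b (h / 4 ^ n)‖ ≤ 2 ^ n * (C * ‖h / 4 ^ n‖) := by gcongr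
      _ = C * ‖h‖ * (1 / 2 : ℝ) ^ n := by
        rw [norm_div, norm_pow]
        simp only [Complex.norm_ofNat]
        rw [show (4 : ℝ) = 2 * 2 by norm_num, mul_pow, one_div, inv_pow]
        have : (2 : ℝ) ^ n ≠ 0 := by positivity
        field_simp
  obtain ⟨n, hn⟩ := pow_unbounded_of_one_lt (‖U‖ / r) (by norm_num : (1:ℝ) < 4)
  have h0 : wd a b (U / 4 ^ n) = 0 := by
    apply hzero
    rw [norm_div, norm_pow]
    simp only [Complex.norm_ofNat]
    rw [div_lt_iff₀ (by positivity)]
    rw [div_lt_iff₀ hr] at hn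
    linarith
  have : ∀ k, wd a b (U / 4 ^ k) = 0 → wd a b U = 0 := by
    intro k
    induction k with
    | zero => intro h; simpa using h
    | succ k ih =>
      intro h
      apply ih
      have e : U / 4 ^ k = 4 * (U / 4 ^ (k + 1)) := by rw [pow_succ]; field_simp
      rw [e, wd_four, h, mul_zero]
  exact this n h0

/-! ### the parametrisation -/

/-- the coordinate `x` -/
noncomputable def px (u : ℂ) : ℂ := qf a b (u ^ 2) / pf a b (u ^ 2)
/-- the coordinate `y` -/
noncomputable def py (u : ℂ) : ℂ := u * wf a b (u ^ 2) / pf a b (u ^ 2) ^ 2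

theorem diff_comp_sq {f : ℂ → ℂ} (hf : Differentiable ℂ f) : Differentiable ℂ fun u => f (u ^ 2) :=
  hf.comp (differentiable_pow 2)

theorem comp_sq_deriv {f : ℂ → ℂ} (hf : Differentiable ℂ f) (u : ℂ) :
    HasDerivAt (fun u => f (u ^ 2)) (deriv f (u ^ 2) * (2 * u)) u := by
  have hs : HasDerivAt (fun u : ℂ => u ^ 2) (2 * u) u := by
    simpa using hasDerivAt_pow 2 u
  exact (hf (u ^ 2)).hasDerivAt.comp u hs

theorem mero_px : Meromorphic (px a b) := fun z =>
  ((diff_comp_sq (diff_q a b)).analyticAt z).meromorphicAt.div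
    ((diff_comp_sq (diff_p a b)).analyticAt z).meromorphicAt

theorem mero_py : Meromorphic (py a b) := fun z =>
  (((differentiable_id.mul (diff_comp_sq (diff_w a b))).analyticAt z).meromorphicAt).div
    (((diff_comp_sq (diff_p a b)).analyticAt z).meromorphicAt.pow 2)

theorem p_codis : ∀ᶠ u in codiscrete ℂ, pf a b (u ^ 2) ≠ 0 := by
  have hd := diff_comp_sq (diff_p a b)
  apply mero_ne (f := fun u => pf a b (u ^ 2)) fun z => (hd.analyticAt z).meromorphicAt
  intro h
  have h1 : ∀ u, pf a b (u ^ 2) = 0 := fun u =>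
    eq_of_codis (f := fun u => pf a b (u ^ 2)) (g := fun _ => 0) h (hd.continuous.continuousAt)
      continuousAt_const
  have h2 : ∀ U, pf a b U = 0 := by
    intro U
    obtain ⟨u, hu⟩ := IsAlgClosed.exists_pow_nat_eq U two_pos
    rw [← hu]
    exact h1 u
  have h3 : pf a b = fun _ => 0 := funext h2
  have h4 := dp_zero a b
  rw [h3] at h4
  exact one_ne_zero (h4.unique (hasDerivAt_const 0 0))

theorem w_codis : ∀ᶠ u in codiscrete ℂ, u * wf a b (u ^ 2) ≠ 0 := by
  have hd : Differentiable ℂ fun u : ℂ => u * wf a b (u ^ 2) :=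
    differentiable_id.mul (diff_comp_sq (diff_w a b))
  apply mero_ne (f := fun u : ℂ => u * wf a b (u ^ 2)) fun z => (hd.analyticAt z).meromorphicAt
  intro h
  have h1 : ∀ u : ℂ, u * wf a b (u ^ 2) = 0 := fun u =>
    eq_of_codis (f := fun u => u * wf a b (u ^ 2)) (g := fun _ => 0) h
      (hd.continuous.continuousAt) continuousAt_const
  have h2 : HasDerivAt (fun u : ℂ => u * wf a b (u ^ 2)) (wf a b (0 ^ 2)) 0 := by
    have h3 := (hasDerivAt_id (0 : ℂ)).fun_mul ((diff_comp_sq (diff_w a b)) 0).hasDerivAt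
    refine h3.congr_deriv ?_
    simp
  have h3 : (fun u : ℂ => u * wf a b (u ^ 2)) = fun _ => 0 := funext h1
  rw [h3] at h2
  have h4 := h2.unique (hasDerivAt_const 0 0)
  rw [zero_pow two_ne_zero, w_zero] at h4
  exact one_ne_zero h4

theorem py_codis : ∀ᶠ u in codiscrete ℂ, py a b u ≠ 0 := by
  filter_upwards [p_codis a b, w_codis a b] with u h1 h2
  exact div_ne_zero h2 (pow_ne_zero _ h1)

theorem curve_codis : ∀ᶠ u in codiscrete ℂ,
    py a b u ^ 2 = px a b u ^ 3 + a * px a b u + b := by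
  filter_upwards [p_codis a b] with u h1
  have h2 := rel a b (u ^ 2)
  unfold C4 at h2
  unfold px py
  field_simp
  linear_combination -h2

theorem dx_codis : ∀ᶠ u in codiscrete ℂ, HasDerivAt (px a b) (-2 * py a b u) u := by
  filter_upwards [p_codis a b] with u h1
  have hp := comp_sq_deriv (diff_p a b) u
  have hq := comp_sq_deriv (diff_q a b) u
  have h2 := wd_eq a b (u ^ 2)
  unfold wd at h2
  refine (hq.fun_div hp h1).congr_deriv ?_
  unfold py
  field_simp
  linear_combination u * h2

theorem dy_codis : ∀ᶠ u in codiscrete ℂ,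
    deriv (py a b) u = -(3 * px a b u ^ 2 + a) := by
  have h1 := deriv_codis (curve_codis a b)
  filter_upwards [h1, dx_codis a b, py_codis a b, mero_an (mero_py a b)] with u h1 h2 h3 h4
  have h5 : deriv (fun u => py a b u ^ 2) u = 2 * py a b u * deriv (py a b) u := by
    have h6 := h4.differentiableAt.hasDerivAt.fun_pow 2
    rw [h6.deriv]
    push_cast
    ring
  have h6 : deriv (fun u => px a b u ^ 3 + a * px a b u + b) u =
      (3 * px a b u ^ 2 + a) * (-2 * py a b u) := by
    have h7 := ((h2.fun_pow 3).fun_add (h2.const_mul a)).add_const b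
    rw [h7.deriv]
    push_cast
    ring
  rw [h5, h6] at h1
  have h8 : (2 * py a b u) * (deriv (py a b) u + (3 * px a b u ^ 2 + a)) = 0 := by
    linear_combination h1
  have h9 := (mul_eq_zero.1 h8).resolve_left (mul_ne_zero two_ne_zero h3)
  linear_combination h9

theorem nc_px : NC (px a b) := by
  rintro ⟨c, hc⟩
  have h1 := deriv_codis hc
  obtain ⟨u, h2, h3, h4⟩ := (h1.and ((dx_codis a b).and (py_codis a b))).exists
  rw [h3.deriv, deriv_const] at h2
  exact h4 ((mul_eq_zero.1 h2).resolve_left (by norm_num))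

end Pool.Agent.Y719.LC
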