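import Pool.Agent.Y719.LC.Par
import Pool.Agent.TH143.EL.Wp

/-!
The differential ring of the parametrisation of a cubic.
-/

set_option autoImplicit false

namespace Pool.Agent.Y719.LC

open Filter Topology Set Metric Pool.Agent.TH143.EL MvPolynomial

variable (a b : ℂ)

/-- the meromorphic functions which are polynomials in the two coordinates -/
noncomputable def PB : Subalgebra ℂ (ℂ → ℂ) where
  carrier := {g | Meromorphic g ∧ ∃ P : MvPolynomial (Fin 2) ℂ,
    ∀ᶠ z in codiscrete ℂ, g z = eval ![px a b z, py a b z] P}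
  mul_mem' := by
    rintro f g ⟨hf, P, hP⟩ ⟨hg, Q, hQ⟩
    refine ⟨hf.mul hg, P * Q, ?_⟩
    filter_upwards [hP, hQ] with z h1 h2
    rw [Pi.mul_apply, map_mul, h1, h2]
  add_mem' := by
    rintro f g ⟨hf, P, hP⟩ ⟨hg, Q, hQ⟩
    refine ⟨hf.add hg, P + Q, ?_⟩
    filter_upwards [hP, hQ] with z h1 h2
    rw [Pi.add_apply, map_add, h1, h2]
  algebraMap_mem' := fun c => ⟨Meromorphic.const c, C c, Eventually.of_forall fun z => by
    rw [eval_C]
    rfl⟩

theorem mero_two (P : MvPolynomial (Fin 2) ℂ) :
    Meromorphic fun z => eval ![px a b z, py a b z] P := by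
  have h1 : ∀ j, Meromorphic (![px a b, py a b] j) := by
    intro j
    fin_cases j
    · exact mero_px a b
    · exact mero_py a b
  have h2 := mero_eval (v := ![px a b, py a b]) h1 P
  have h3 : (fun z => eval (fun j => ![px a b, py a b] j z) P) =
      fun z => eval ![px a b z, py a b z] P := by
    funext z
    congr 2
    funext j
    fin_cases j <;> rfl
  rwa [h3] at h2

/-- derivatives of polynomials in the coordinates -/
theorem deriv_two (P : MvPolynomial (Fin 2) ℂ) : ∃ Q : MvPolynomial (Fin 2) ℂ,
    ∀ᶠ z in codiscrete ℂ, deriv (fun z => eval ![px a b z, py a b z] P) z =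
      eval ![px a b z, py a b z] Q := by
  induction P using MvPolynomial.induction_on with
  | C c =>
    refine ⟨0, Eventually.of_forall fun z => ?_⟩
    simp only [eval_C, deriv_const, map_zero]
  | add p q hp hq =>
    obtain ⟨p', hp'⟩ := hp
    obtain ⟨q', hq'⟩ := hq
    refine ⟨p' + q', ?_⟩
    filter_upwards [hp', hq', mero_an (mero_two a b p), mero_an (mero_two a b q)]
      with z h1 h2 h3 h4
    simp only [map_add]
    rw [← h1, ← h2]
    exact deriv_fun_add h3.differentiableAt h4.differentiableAt
  | mul_X p i hp =>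
    obtain ⟨p', hp'⟩ := hp
    fin_cases i
    · refine ⟨p' * X 0 + p * (C (-2) * X 1), ?_⟩
      filter_upwards [hp', mero_an (mero_two a b p), dx_codis a b] with z h1 h3 h4
      simp only [map_mul, map_add, eval_X, Fin.zero_eta, Matrix.cons_val_zero, eval_C,
        Matrix.cons_val_one, Matrix.cons_val_fin_one]
      rw [← h1, deriv_fun_mul h3.differentiableAt h4.differentiableAt, h4.deriv]
    · refine ⟨p' * X 1 + p * (-(C 3 * X 0 ^ 2 + C a)), ?_⟩
      filter_upwards [hp', mero_an (mero_two a b p), dy_codis a b, mero_an (mero_py a b)]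
        with z h1 h3 h4 h5
      simp only [map_mul, map_add, eval_X, Fin.mk_one, Matrix.cons_val_zero, eval_C,
        Matrix.cons_val_one, Matrix.cons_val_fin_one, map_neg, map_pow]
      rw [← h1, deriv_fun_mul h3.differentiableAt h5.differentiableAt, h4]

theorem PB_der {g : ℂ → ℂ} (hg : g ∈ PB a b) : deriv g ∈ PB a b := by
  obtain ⟨hm, P, hP⟩ := hg
  obtain ⟨Q, hQ⟩ := deriv_two a b P
  refine ⟨hm.deriv, Q, ?_⟩
  filter_upwards [hQ, deriv_codis hP] with z h1 h2
  rw [h2, h1]

theorem px_mem : px a b ∈ PB a b := ⟨mero_px a b, X 0, Eventually.of_forall fun z => by simp⟩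

theorem py_mem : py a b ∈ PB a b := ⟨mero_py a b, X 1, Eventually.of_forall fun z => by simp⟩

/-- the ring generated by one class -/
theorem one_dep (ξ : MK) : ∀ x ∈ Algebra.adjoin ℂ {ξ}, ∀ y ∈ Algebra.adjoin ℂ {ξ},
    ¬ AlgebraicIndependent ℂ ![x, y] := by
  intro x hx y hy h
  rw [Algebra.adjoin_singleton_eq_range_aeval] at hx hy
  obtain ⟨P, hP⟩ := hx
  obtain ⟨R, hR⟩ := hy
  have hP' : Polynomial.aeval ξ P = x := hP
  have hR' : Polynomial.aeval ξ R = y := hR
  have h1 : ¬ AlgebraicIndependent ℂ ![P, R] := by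
    intro h2
    have h3 := h2.cardinalMk_le_trdeg
    rw [Polynomial.trdeg_of_isDomain, Cardinal.mk_fin] at h3
    exact absurd h3 (by norm_num)
  rw [algebraicIndependent_iff] at h1 h
  push Not at h1
  obtain ⟨T, hT, hT0⟩ := h1
  apply hT0
  apply h
  have h4 := congrArg (Polynomial.aeval ξ) hT
  rw [map_zero, ← AlgHom.comp_apply, comp_aeval] at h4
  rw [← h4]
  congr 2
  funext j
  fin_cases j
  · exact hP'.symm
  · exact hR'.symm

theorem alg_two {ξ η : MK} (hη : η ^ 2 = ξ ^ 3 + algebraMap ℂ MK a * ξ + algebraMap ℂ MK b)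
    (P : MvPolynomial (Fin 2) ℂ) : IsAlgebraic (Algebra.adjoin ℂ {ξ}) (aeval ![ξ, η] P) := by
  set Bs := Algebra.adjoin ℂ {ξ}
  have hξ : ξ ∈ Bs := Algebra.subset_adjoin rfl
  have key : ∀ P : MvPolynomial (Fin 2) ℂ,
      aeval ![ξ, η] P ∈ Subalgebra.algebraicClosure Bs MK := by
    intro P
    induction P using MvPolynomial.induction_on with
    | C c =>
      rw [← algebraMap_eq, AlgHom.commutes]
      have h1 : algebraMap ℂ MK c = algebraMap Bs MK (algebraMap ℂ Bs c) := rfl
      rw [h1]
      exact Subalgebra.algebraMap_mem _ _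
    | add p q hp hq =>
      rw [map_add]
      exact add_mem hp hq
    | mul_X p i hp =>
      rw [map_mul, aeval_X]
      refine mul_mem hp ?_
      fin_cases i
      · exact (Subalgebra.algebraicClosure Bs MK).algebraMap_mem (⟨ξ, hξ⟩ : Bs)
      · change IsAlgebraic Bs η
        apply IsAlgebraic.of_pow (n := 2) two_pos
        rw [hη]
        have h1 : ξ ^ 3 + algebraMap ℂ MK a * ξ + algebraMap ℂ MK b ∈ Bs :=
          add_mem (add_mem (pow_mem hξ 3) (mul_mem (Subalgebra.algebraMap_mem _ _) hξ))
            (Subalgebra.algebraMap_mem _ _)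
        exact isAlgebraic_algebraMap (⟨_, h1⟩ : Bs)
  exact key P

/-- **The differential ring.** -/
theorem trOne_PB : TrOne (PB a b) where
  mero := fun g hg => hg.1
  der := fun g hg => PB_der a b hg
  dep := by
    rintro f ⟨hf, P, hP⟩ g ⟨hg, Q, hQ⟩
    by_contra hcon
    push Not at hcon
    have hw : ∀ j, Meromorphic (![f, g] j) := by
      intro j
      fin_cases j
      · exact hf
      · exact hg
    have hcl : (fun j => cl (![f, g] j) (hw j)) = ![cl f hf, cl g hg] := by
      funext j
      fin_cases j <;> rfl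
    have hind : AlgebraicIndependent ℂ ![cl f hf, cl g hg] := by
      rw [algebraicIndependent_iff]
      intro T hT
      by_contra hT0
      apply hcon T hT0
      rw [← hcl, aeval_cl _ hw, cl_eq_zero] at hT
      filter_upwards [hT] with z hz
      have h1 : (fun j => ![f, g] j z) = ![f z, g z] := by
        funext j
        fin_cases j <;> rfl
      rw [h1] at hz
      exact not_not.2 hz
    set ξ := cl (px a b) (mero_px a b) with hξ
    set η := cl (py a b) (mero_py a b) with hη
    have hrel : η ^ 2 = ξ ^ 3 + algebraMap ℂ MK a * ξ + algebraMap ℂ MK b := by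
      have h1 : η ^ 2 = cl (py a b * py a b) ((mero_py a b).mul (mero_py a b)) := by
        rw [pow_two, hη, cl_mul]
      have h2 : ξ ^ 3 + algebraMap ℂ MK a * ξ + algebraMap ℂ MK b =
          cl (px a b * px a b * px a b + (fun _ => a) * px a b + fun _ => b)
            ((((mero_px a b).mul (mero_px a b)).mul (mero_px a b)).add
              ((Meromorphic.const a).mul (mero_px a b)) |>.add (Meromorphic.const b)) := by
        rw [← cl_const, ← cl_const, hξ, pow_succ, pow_two, cl_mul, cl_mul, cl_mul,
          cl_add, cl_add]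
      rw [h1, h2, cl_eq]
      filter_upwards [curve_codis a b] with z hz
      simp only [Pi.add_apply, Pi.mul_apply]
      linear_combination hz
    have hPQ : ∀ (f : ℂ → ℂ) (hf : Meromorphic f) (P : MvPolynomial (Fin 2) ℂ),
        (∀ᶠ z in codiscrete ℂ, f z = eval ![px a b z, py a b z] P) →
        cl f hf = aeval ![ξ, η] P := by
      intro f hf P hP
      have hw : ∀ j, Meromorphic (![px a b, py a b] j) := by
        intro j
        fin_cases j
        · exact mero_px a b
        · exact mero_py a b
      have hcl : (fun j => cl (![px a b, py a b] j) (hw j)) = ![ξ, η] := by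
        funext j
        fin_cases j <;> rfl
      rw [← hcl, aeval_cl _ hw, cl_eq]
      filter_upwards [hP] with z hz
      rw [hz]
      congr 2
      funext j
      fin_cases j <;> rfl
    have ha1 := alg_two a b hrel P
    have ha2 := alg_two a b hrel Q
    rw [← hPQ f hf P hP] at ha1
    rw [← hPQ g hg Q hQ] at ha2
    have ht1 : Transcendental ℂ (cl f hf) := hind.transcendental 0
    have h3 := alg_dep (Algebra.adjoin ℂ {ξ}) (one_dep ξ) ha1 ha2 ht1
    have h4 := (AlgebraicIndependent.iff_transcendental_adjoin_image (1 : Fin 2)).1 hind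
    have h5 := h4.2
    have h6 : (![cl f hf, cl g hg] '' {1}ᶜ : Set MK) = {cl f hf} := by
      ext t
      constructor
      · rintro ⟨j, hj, rfl⟩
        fin_cases j
        · rfl
        · exact absurd rfl hj
      · rintro rfl
        exact ⟨0, by simp, rfl⟩
    rw [h6] at h5
    exact h5 h3

end Pool.Agent.Y719.LC
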